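import Mathlib.GroupTheory.GroupAction.Quotient
import Mathlib.Data.Real.Basic
import Mathlib.Data.Set.Card
import Pool.Agent.MP_3bdc7b_an.Defs

/-!
The topological Markov property, and groups that are free up to an amenable coset space.
-/

namespace Pool.Agent.MP_3bdc7b_an.ca

/-- the topological Markov property: every finite set `R` lies in a finite set `S` such that two
points of `X` that agree on `S` minus `R` can be pasted, the first on `R` and the second off `R` -/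
def TMP {G A : Type*} (X : Set (G → A)) : Prop :=
  ∀ R : Finset G, ∃ S : Finset G, R ⊆ S ∧ ∀ x ∈ X, ∀ y ∈ X, (∀ g ∈ S, g ∉ R → x g = y g) →
    ∃ z ∈ X, (∀ g ∈ R, z g = x g) ∧ ∀ g, g ∉ R → z g = y g

/-- for every finite `S` and `ε > 0` there are a locally virtually free subgroup `L` and a
nonempty finite `(S, ε)`-invariant set of cosets of `L` -/
def CoamenablyFree (G : Type*) [Group G] : Prop :=
  ∀ (S : Finset G) (ε : ℝ), 0 < ε → ∃ L : Subgroup G, LocallyVirtuallyFree L ∧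
    ∃ F : Finset (G ⧸ L), F.Nonempty ∧
      ∀ s ∈ S, ({c | c ∈ F ∧ s • c ∉ F}.ncard : ℝ) ≤ ε * F.card

/-- sofic groups -/
def IsSofic (G : Type*) [Group G] : Prop :=
  ∀ (F : Finset G) (ε : ℝ), 0 < ε → ∃ (n : ℕ) (σ : G → Equiv.Perm (Fin n)), 0 < n ∧
    (∀ g ∈ F, ∀ h ∈ F, (1 - ε) * n ≤ ({v | σ (g * h) v = σ g (σ h v)}.ncard : ℝ)) ∧
    ∀ g ∈ F, g ≠ 1 → (1 - ε) * n ≤ ({v | σ g v ≠ v}.ncard : ℝ)

end Pool.Agent.MP_3bdc7b_an.ca
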