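import Mathlib.Algebra.Order.Archimedean.Basic
import Mathlib.Algebra.BigOperators.Ring.Finset
import Mathlib.Data.Finset.NAry
import Mathlib.Data.Fintype.BigOperators
import Pool.Agent.MP_3bdc7b_an.ca.Defs
import Pool.Agent.MP_3bdc7b_an.Main

/-!
Counting labelings of finite approximate models of a group.
-/

namespace Pool.Agent.MP_3bdc7b_an.ca

open Finset

universe u w

lemma card_le_of_agree {V A β : Type*} [Fintype A] (s : Finset (V → A)) (t : Finset β)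
    (U : Finset V) (f : (V → A) → β) (hf : ∀ y ∈ s, f y ∈ t)
    (h : ∀ y ∈ s, ∀ y' ∈ s, f y = f y' → ∀ v ∉ U, y v = y' v) :
    #s ≤ #t * Fintype.card A ^ #U := by
  classical
  have := card_le_card_of_injOn (s := s) (t := t ×ˢ (univ : Finset (U → A)))
    (fun y => (f y, fun u => y u)) (fun y hy => by simpa using hf y hy) fun y hy y' hy' e => by
      funext v
      by_cases hv : v ∈ U
      · exact congrFun (congrArg Prod.snd e) ⟨v, hv⟩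
      · exact h y hy y' hy' (congrArg Prod.fst e) v hv
  simpa using this

variable {G : Type u} [Group G] {A : Type*}

lemma paste {X : Set (G → A)} (hs : ∀ g, ∀ x ∈ X, shift g x ∈ X) {R S : Finset G}
    (hT : ∀ x ∈ X, ∀ y ∈ X, (∀ g ∈ S, g ∉ R → x g = y g) →
      ∃ z ∈ X, (∀ g ∈ R, z g = x g) ∧ ∀ g, g ∉ R → z g = y g) (hRS : R ⊆ S)
    {x : G → A} (hx : x ∈ X) (z : G → G → A) (T : Finset G) (hz : ∀ t ∈ T, z t ∈ X)
    (h1 : ∀ t ∈ T, ∀ s ∈ S, s ∉ R → z t s = x (t * s))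
    (h2 : ∀ t ∈ T, ∀ t' ∈ T, ∀ s ∈ S, ∀ r ∈ R, t * s = t' * r → t = t') :
    ∃ x' ∈ X, (∀ t ∈ T, ∀ r ∈ R, x' (t * r) = z t r) ∧
      ∀ g, (∀ t ∈ T, ∀ r ∈ R, g ≠ t * r) → x' g = x g := by
  classical
  induction T using Finset.induction_on with
  | empty => exact ⟨x, hx, by simp, fun _ _ => rfl⟩
  | insert t T ht ih =>
    obtain ⟨x', hx', k1, k2⟩ := ih (fun t h => hz t (mem_insert_of_mem h))
      (fun t h => h1 t (mem_insert_of_mem h))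
      fun t h t' h' => h2 t (mem_insert_of_mem h) t' (mem_insert_of_mem h')
    have hne : ∀ s ∈ S, ∀ t' ∈ T, ∀ r ∈ R, t * s ≠ t' * r := fun s hs t' ht' r hr e =>
      ht (h2 t (mem_insert_self _ _) t' (mem_insert_of_mem ht') s hs r hr e ▸ ht')
    obtain ⟨w, hw, k3, k4⟩ := hT _ (hz t (mem_insert_self _ _)) _ (hs t⁻¹ _ hx') fun s hs hr => by
      rw [shift_inv_apply, k2 _ (hne s hs), h1 t (mem_insert_self _ _) s hs hr]
    have k5 : ∀ g, (∀ r ∈ R, g ≠ t * r) → shift t w g = x' g := fun g hg => by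
      rw [shift, k4 _ fun h => hg _ h (by group), shift_inv_apply, mul_inv_cancel_left]
    refine ⟨shift t w, hs _ _ hw, fun t' ht' r hr => ?_, fun g hg => ?_⟩
    · rcases mem_insert.1 ht' with rfl | ht'
      · rw [shift, inv_mul_cancel_left, k3 r hr]
      · rw [k5 _ fun r' hr' e => hne r' (hRS hr') t' ht' r hr e.symm, k1 t' ht' r hr]
    · rw [k5 g (hg t (mem_insert_self _ _)), k2 g fun t h => hg t (mem_insert_of_mem h)]

/-- an approximate right action of `G` on `V`, exact and free on `K` at the points of `V₀` -/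
structure Chart (K : Finset G) (V : Type w) where
  a : V → G → V
  V₀ : Finset V
  one : ∀ v ∈ V₀, a v 1 = v
  inj : ∀ v ∈ V₀, Set.InjOn (a v) K
  mul : ∀ v ∈ V₀, ∀ g ∈ K, ∀ h, g * h ∈ K → a (a v g) h = a v (g * h)

/-- `X` has labeled finite models -/
def HasModels (X : Set (G → A)) : Prop :=
  ∀ (K : Finset G) (ε : ℝ), 0 < ε → ∃ (V : Type w) (_ : Fintype V) (_ : Nonempty V)
    (c : Chart K V), (Fintype.card V - #c.V₀ : ℝ) ≤ ε * Fintype.card V ∧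
      ∃ y : V → A, ∀ v ∈ c.V₀, ∃ x ∈ X, ∀ g ∈ K, y (c.a v g) = x g

namespace Chart

variable {K : Finset G} {V : Type w} (c : Chart K V)

open Classical in
/-- the labelings with admissible windows -/
noncomputable def mic [Fintype V] [Fintype A] (X : Set (G → A)) (K' : Finset G) :
    Finset (V → A) :=
  univ.filter fun y => ∀ v ∈ c.V₀, ∃ x ∈ X, ∀ g ∈ K', y (c.a v g) = x g

/-- the pattern of `p` on `P` occurs at `v` -/
def Occ (P : Finset G) (p : G → A) (y : V → A) (v : V) : Prop := ∀ g ∈ P, y (c.a v g) = p g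

/-- separated sets -/
def Sep (S : Finset G) (I : Finset V) : Prop :=
  I ⊆ c.V₀ ∧ ∀ v ∈ I, ∀ v' ∈ I, ∀ s ∈ S, ∀ s' ∈ S, c.a v s = c.a v' s' → v = v'

lemma back {v v' : V} (hv : v ∈ c.V₀) (hv' : v' ∈ c.V₀) {s s' : G} (h1 : (1 : G) ∈ K) (hs : s ∈ K)
    (hs' : s' ∈ K) (h : s * s'⁻¹ ∈ K) (e : c.a v s = c.a v' s') : c.a v (s * s'⁻¹) = v' := by
  rw [← c.mul v hv s hs _ h, e, c.mul v' hv' s' hs' _ (by simpa using h1), mul_inv_cancel,
    c.one v' hv']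

lemma exists_sep [DecidableEq G] (S : Finset G) (h1 : (1 : G) ∈ S) (hS : S ⊆ K)
    (hSS : image₂ (fun s s' => s * s'⁻¹) S S ⊆ K) :
    ∃ I, c.Sep S I ∧ #c.V₀ ≤ #I * #(image₂ (fun s s' => s * s'⁻¹) S S) := by
  classical
  obtain ⟨I, hI, hmax⟩ := exists_max_image (c.V₀.powerset.filter (c.Sep S)) card
    ⟨∅, by simp [Sep]⟩
  have hI' := (mem_filter.1 hI).2
  refine ⟨I, hI', le_trans (card_le_card fun v hv => ?_) (card_image₂_le c.a _ _)⟩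
  by_contra hc
  have k : ∀ v' ∈ I, ∀ s ∈ S, ∀ s' ∈ S, c.a v' s ≠ c.a v s' := fun v' hv' s hs s' hs' e =>
    hc (mem_image₂.2 ⟨v', hv', _, mem_image₂_of_mem hs hs', c.back (hI'.1 hv') hv (hS h1) (hS hs)
      (hS hs') (hSS (mem_image₂_of_mem hs hs')) e⟩)
  have hvI : v ∉ I := fun h => k v h 1 h1 1 h1 rfl
  have h2 := insert_subset hv hI'.1
  have := hmax (insert v I) (mem_filter.2 ⟨mem_powerset.2 h2, h2, fun a ha b hb s hs s' hs' e => by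
    rcases mem_insert.1 ha with rfl | ha' <;> rcases mem_insert.1 hb with rfl | hb'
    · rfl
    · exact absurd e.symm (k b hb' s' hs' s hs)
    · exact absurd e (k a ha' s hs s' hs')
    · exact hI'.2 a ha' b hb' s hs s' hs' e⟩)
  rw [card_insert_of_notMem hvI] at this
  omega

variable [Fintype V] [Fintype A] {X : Set (G → A)}

lemma mem_mic {K' : Finset G} {y : V → A} :
    y ∈ c.mic X K' ↔ ∀ v ∈ c.V₀, ∃ x ∈ X, ∀ g ∈ K', y (c.a v g) = x g := by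
  simp [mic]

open Classical in
lemma step1 {τ : X → X} {M N P K₁ K₂ : Finset G} {μ : (G → A) → A} {p : G → A}
    (hμ : ∀ (w : X) g (u : G → A), (∀ m ∈ M, u m = w.1 (g * m)) → μ u = (τ w).1 g)
    (hN : ∀ w w' : X, (∀ n ∈ N, (τ w).1 n = (τ w').1 n) → w.1 1 = w'.1 1)
    (hP : ∀ w : X, ¬∀ g ∈ P, (τ w).1 g = p g) (k1 : K₁ ⊆ K) (k2 : K₂ ⊆ K) (k3 : (1 : G) ∈ K₂)
    (k4 : N ⊆ K₁) (k5 : P ⊆ K₁) (k6 : ∀ g ∈ K₁, ∀ m ∈ M, g * m ∈ K₂) :
    #(c.mic X K₂) ≤ #((c.mic X K₁).filter fun y => ∀ v ∈ c.V₀, ¬c.Occ P p y v) *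
      Fintype.card A ^ #c.V₀ᶜ := by
  have key : ∀ (y : V → A), ∀ v ∈ c.V₀, ∀ x : X, (∀ g ∈ K₂, y (c.a v g) = x.1 g) → ∀ g ∈ K₁,
      μ (fun h => y (c.a (c.a v g) h)) = (τ x).1 g := fun y v hv x hx g hg =>
    hμ x g _ fun m hm => by rw [c.mul v hv g (k1 hg) m (k2 (k6 g hg m hm)), hx _ (k6 g hg m hm)]
  refine card_le_of_agree _ _ _ (fun y w => μ fun h => y (c.a w h)) (fun y hy => ?_)
    fun y hy y' hy' e v hv => ?_
  · refine mem_filter.2 ⟨c.mem_mic.2 fun v hv => ?_, fun v hv h => ?_⟩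
    · obtain ⟨x, hx, h⟩ := c.mem_mic.1 hy v hv
      exact ⟨_, (τ ⟨x, hx⟩).2, key y v hv ⟨x, hx⟩ h⟩
    · obtain ⟨x, hx, h'⟩ := c.mem_mic.1 hy v hv
      exact hP ⟨x, hx⟩ fun g hg => (key y v hv ⟨x, hx⟩ h' g (k5 hg)).symm.trans (h g hg)
  · have hv' : v ∈ c.V₀ := by simpa using hv
    obtain ⟨x, hx, h⟩ := c.mem_mic.1 hy v hv'
    obtain ⟨x', hx', h'⟩ := c.mem_mic.1 hy' v hv'
    have := hN ⟨x, hx⟩ ⟨x', hx'⟩ fun n hn => by
      rw [← key y v hv' ⟨x, hx⟩ h n (k4 hn), ← key y' v hv' ⟨x', hx'⟩ h' n (k4 hn)]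
      exact congrFun e _
    rw [← c.one v hv', h 1 k3, h' 1 k3]
    exact this

open Classical in
lemma step2 [Nonempty A] (hs : ∀ g, ∀ x ∈ X, shift g x ∈ X) {R S P K₀ K₁ : Finset G} {p : G → A}
    (hT : ∀ x ∈ X, ∀ y ∈ X, (∀ g ∈ S, g ∉ R → x g = y g) →
      ∃ z ∈ X, (∀ g ∈ R, z g = x g) ∧ ∀ g, g ∉ R → z g = y g) (hRS : R ⊆ S) (hPR : P ⊆ R)
    (hp : ∀ x ∈ X, ∃ z ∈ X, (∀ g ∈ P, z g = p g) ∧ ∀ g ∈ S, g ∉ R → z g = x g)
    (k1 : K₁ ⊆ K) (k2 : (1 : G) ∈ S) (k3 : S ⊆ K₁) (k4 : K₀ ⊆ K₁)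
    (k5 : ∀ g ∈ K₀, ∀ r ∈ R, ∀ s ∈ S, g * r⁻¹ * s ∈ K₁) {I J : Finset V} (hI : c.Sep S I)
    (hJ : J ⊆ I) :
    #((c.mic X K₁).filter fun y => ∀ v ∈ c.V₀, ¬c.Occ P p y v) ≤
      #((c.mic X K₀).filter fun y => I.filter (c.Occ P p y) = J) *
        Fintype.card A ^ #(image₂ c.a J R) := by
  suffices H : ∀ y ∈ (c.mic X K₁).filter fun y => ∀ v ∈ c.V₀, ¬c.Occ P p y v,
      ∃ y' ∈ (c.mic X K₀).filter fun y => I.filter (c.Occ P p y) = J,
        ∀ w ∉ image₂ c.a J R, y' w = y w by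
    choose! f h1 h2 using H
    exact card_le_of_agree _ _ _ f h1 fun y hy y' hy' e v hv => by
      rw [← h2 y hy v hv, e, h2 y' hy' v hv]
  intro y hy
  obtain ⟨hy1, hy2⟩ := mem_filter.1 hy
  have H : ∀ v ∈ c.V₀, ∃ z ∈ X, (∀ g ∈ P, z g = p g) ∧ ∀ g ∈ S, g ∉ R → z g = y (c.a v g) :=
    fun v hv => by
      obtain ⟨x, hx, h⟩ := c.mem_mic.1 hy1 v hv
      obtain ⟨z, hz, h1, h2⟩ := hp x hx
      exact ⟨z, hz, h1, fun g hg hr => (h2 g hg hr).trans (h g (k3 hg)).symm⟩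
  choose! z z1 z2 z3 using H
  have hJ0 : J ⊆ c.V₀ := hJ.trans hI.1
  let y' : V → A := fun w => if h : ∃ q : V × G, q.1 ∈ J ∧ q.2 ∈ R ∧ c.a q.1 q.2 = w then
    z h.choose.1 h.choose.2 else y w
  have e1 : ∀ v ∈ J, ∀ r ∈ R, y' (c.a v r) = z v r := fun v hv r hr => by
    have h : ∃ q : V × G, q.1 ∈ J ∧ q.2 ∈ R ∧ c.a q.1 q.2 = c.a v r := ⟨(v, r), hv, hr, rfl⟩
    obtain ⟨h1, h2, h3⟩ := h.choose_spec
    have h4 := hI.2 _ (hJ h1) _ (hJ hv) _ (hRS h2) _ (hRS hr) h3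
    rw [h4] at h3
    simp only [y', dif_pos h]
    rw [h4, c.inj v (hJ0 hv) (k1 (k3 (hRS h2))) (k1 (k3 (hRS hr))) h3]
  have e2 : ∀ w ∉ image₂ c.a J R, y' w = y w := fun w hw =>
    dif_neg fun ⟨q, h1, h2, h3⟩ => hw (mem_image₂.2 ⟨_, h1, _, h2, h3⟩)
  refine ⟨y', mem_filter.2 ⟨c.mem_mic.2 fun u hu => ?_, ?_⟩, e2⟩
  · obtain ⟨x, hx, h⟩ := c.mem_mic.1 hy1 u hu
    let T := (image₂ (fun g r => g * r⁻¹) K₀ R).filter fun t => c.a u t ∈ J
    have hT1 : ∀ t ∈ T, ∀ s ∈ S, t * s ∈ K₁ := fun t ht s hs => by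
      obtain ⟨g, hg, r, hr, rfl⟩ := mem_image₂.1 (mem_filter.1 ht).1
      exact k5 g hg r hr s hs
    have hT2 : ∀ t ∈ T, t ∈ K := fun t ht => by simpa using k1 (hT1 t ht 1 k2)
    have hT3 : ∀ t ∈ T, ∀ s ∈ S, c.a (c.a u t) s = c.a u (t * s) := fun t ht s hs =>
      c.mul u hu t (hT2 t ht) s (k1 (hT1 t ht s hs))
    obtain ⟨x', hx', h1, h2⟩ := paste hs hT hRS hx (fun t => z (c.a u t)) T
      (fun t ht => z1 _ (hJ0 (mem_filter.1 ht).2))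
      (fun t ht s hs hr => by
        rw [z3 _ (hJ0 (mem_filter.1 ht).2) s hs hr, hT3 t ht s hs, h _ (hT1 t ht s hs)])
      fun t ht t' ht' s hs r hr e => c.inj u hu (hT2 t ht) (hT2 t' ht')
        (hI.2 _ (hJ (mem_filter.1 ht).2) _ (hJ (mem_filter.1 ht').2) s hs r (hRS hr) (by
          rw [hT3 t ht s hs, hT3 t' ht' r (hRS hr), e]))
    refine ⟨x', hx', fun g hg => ?_⟩
    by_cases hw : c.a u g ∈ image₂ c.a J R
    · obtain ⟨v, hv, r, hr, e⟩ := mem_image₂.1 hw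
      have e3 := c.back hu (hJ0 hv) (k1 (k3 k2)) (k1 (k4 hg)) (k1 (k3 (hRS hr)))
        (by simpa using k1 (k5 g hg r hr 1 k2)) e.symm
      have := h1 (g * r⁻¹) (mem_filter.2 ⟨mem_image₂_of_mem hg hr, e3 ▸ hv⟩) r hr
      rw [inv_mul_cancel_right, e3] at this
      rw [← e, e1 v hv r hr, this]
    · rw [e2 _ hw, h g (k4 hg), h2 g fun t ht r hr e => hw (mem_image₂.2
        ⟨_, (mem_filter.1 ht).2, r, hr, by rw [hT3 t ht r (hRS hr), e]⟩)]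
  · ext v
    rw [mem_filter]
    refine ⟨fun ⟨h1, h2⟩ => ?_, fun hv => ⟨hJ hv, fun g hg => ?_⟩⟩
    · by_contra hv
      refine hy2 v (hI.1 h1) fun g hg => ?_
      rw [← h2 g hg, e2 _ fun h => ?_]
      obtain ⟨v', hv', r, hr, e⟩ := mem_image₂.1 h
      exact hv (hI.2 _ (hJ hv') _ h1 _ (hRS hr) _ (hRS (hPR hg)) e ▸ hv')
    · rw [e1 v hv g (hPR hg), z2 v (hJ0 hv) g hg]

open Classical in
lemma step3 [Nonempty A] {n : ℕ} {R P K₀ : Finset G} {p : G → A} {I : Finset V}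
    (h : ∀ J ⊆ I, n ≤ #((c.mic X K₀).filter fun y => I.filter (c.Occ P p y) = J) *
      Fintype.card A ^ #(image₂ c.a J R)) :
    (n : ℝ) * (1 + ((Fintype.card A : ℝ) ^ #R)⁻¹) ^ #I ≤ #(c.mic X K₀) := by
  have hA : (1 : ℝ) ≤ Fintype.card A := by exact_mod_cast Fintype.card_pos
  rw [card_eq_sum_card_fiberwise (f := fun y => I.filter (c.Occ P p y)) (t := I.powerset)
    fun y _ => mem_powerset.2 (filter_subset _ _), ← prod_const, prod_one_add, mul_sum]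
  push_cast
  refine sum_le_sum fun J hJ => ?_
  have h1 : (n : ℝ) ≤ #((c.mic X K₀).filter fun y => I.filter (c.Occ P p y) = J) *
      (Fintype.card A : ℝ) ^ #(image₂ c.a J R) := by exact_mod_cast h J (mem_powerset.1 hJ)
  rw [prod_const, inv_pow, ← div_eq_mul_inv, div_le_iff₀ (by positivity), ← pow_mul, mul_comm #R]
  exact h1.trans (mul_le_mul_of_nonneg_left (pow_le_pow_right₀ hA (card_image₂_le _ _ _))
    (by positivity))

end Chart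

end Pool.Agent.MP_3bdc7b_an.ca
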