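import Mathlib.Data.Fintype.Perm
import Mathlib.Tactic.Positivity
import Mathlib.Tactic.Linarith
import Pool.Agent.MP_3bdc7b_an.ca.Count

/-!
Cutting a finite model into tiles with small boundary, by random priorities.
-/

namespace Pool.Agent.MP_3bdc7b_an.ca

open Finset

universe u w

lemma card_isMin {V : Type w} [Fintype V] [DecidableEq V] {n : ℕ} (C : Finset V) {c : V}
    (hc : c ∈ C) : #(univ.filter fun π : V ≃ Fin n => ∀ z ∈ C, π c ≤ π z) * #C ≤
      Fintype.card (V ≃ Fin n) := by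
  rw [← card_product, ← card_univ]
  have k : ∀ (π : V ≃ Fin n), (∀ z ∈ C, π c ≤ π z) → ∀ c' ∈ C, ∀ z ∈ C,
      (Equiv.swap c c').trans π c' ≤ (Equiv.swap c c').trans π z := fun π hπ c' hc' z hz => by
    simp only [Equiv.trans_apply, Equiv.swap_apply_right]
    refine hπ _ ?_
    rw [Equiv.swap_apply_def]
    split_ifs <;> assumption
  refine card_le_card_of_injOn (fun q => (Equiv.swap c q.2).trans q.1) (fun _ _ => mem_univ _) ?_
  rintro ⟨π, c₁⟩ h1 ⟨π', c₂⟩ h2 e
  simp only [coe_product, coe_filter, mem_univ, true_and, Set.mem_prod, Set.mem_ofPred_eq,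
    mem_coe] at h1 h2 e
  have h3 := k π h1.1 c₁ h1.2 c₂ h2.2
  have h4 := k π' h2.1 c₂ h2.2 c₁ h1.2
  rw [← e] at h4
  obtain rfl : c₁ = c₂ := ((Equiv.swap c c₁).trans π).injective (le_antisymm h3 h4)
  refine Prod.ext (Equiv.ext fun v => ?_) rfl
  simpa using congrArg (fun ρ : V ≃ Fin n => ρ (Equiv.swap c c₁ v)) e

variable {G : Type u} [Group G] {K : Finset G} {V : Type w} [Fintype V] (c : Chart K V)

open Classical in
lemma Chart.exists_tiling {F Δ : Finset G} (hF : F.Nonempty) {η : ℝ} (hη : 0 ≤ η)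
    (h : ∀ d ∈ Δ, (#(F.filter fun g => d * g ∉ F) : ℝ) ≤ η * #F) (k1 : F ⊆ K) (k2 : Δ ⊆ K)
    (k3 : ∀ d ∈ Δ, ∀ g ∈ F, d * g ∈ K) :
    ∃ e : V → G, (∀ w, e w ∈ F) ∧ (#(c.V₀.filter fun w => ∃ d ∈ Δ,
      c.a w (e w) ≠ c.a (c.a w d) (e (c.a w d))) : ℝ) ≤ 2 * η * #Δ * Fintype.card V := by
  choose e e1 e2 using fun (π : V ≃ Fin (Fintype.card V)) (w : V) =>
    exists_min_image F (fun g => π (c.a w g)) hF
  have hF' : (0 : ℝ) < #F := by exact_mod_cast hF.card_pos
  have key : ∀ w ∈ c.V₀, ∀ d ∈ Δ, (#(univ.filter fun π =>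
      c.a w (e π w) ≠ c.a (c.a w d) (e π (c.a w d))) : ℝ) ≤
      2 * η * Fintype.card (V ≃ Fin (Fintype.card V)) := fun w hw d hd => by
    have m : ∀ g ∈ F, c.a (c.a w d) g = c.a w (d * g) := fun g hg =>
      c.mul w hw d (k2 hd) g (k3 d hd g hg)
    let F' := F.image (d * ·)
    let C := (F ∪ F').image (c.a w)
    have c1 : #(F' \ F) = #(F.filter fun g => d * g ∉ F) := by
      rw [← card_image_of_injective (F.filter fun g => d * g ∉ F) (mul_right_injective d)]
      congr 1
      ext g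
      simp only [F', mem_sdiff, mem_image, mem_filter]
      exact ⟨fun ⟨⟨x, h1, h2⟩, h3⟩ => ⟨x, ⟨h1, h2 ▸ h3⟩, h2⟩,
        fun ⟨x, ⟨h1, h3⟩, h2⟩ => ⟨⟨x, h1, h2⟩, h2 ▸ h3⟩⟩
    have c2 : #(F \ F') = #(F' \ F) :=
      card_sdiff_comm (card_image_of_injective _ (mul_right_injective d)).symm
    have c3 : #F ≤ #C := by
      rw [← card_image_of_injOn ((c.inj w hw).mono (coe_subset.2 k1))]
      exact card_le_card (image_subset_image subset_union_left)
    have c4 : #(univ.filter fun π => c.a w (e π w) ≠ c.a (c.a w d) (e π (c.a w d))) ≤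
        ∑ g ∈ F \ F' ∪ F' \ F, #(univ.filter fun π : V ≃ Fin (Fintype.card V) =>
          ∀ z ∈ C, π (c.a w g) ≤ π z) := by
      refine le_trans (card_le_card fun π hπ => ?_) card_biUnion_le
      have h1 : ∀ g ∈ F', π (c.a w (d * e π (c.a w d))) ≤ π (c.a w g) := fun g hg => by
        obtain ⟨g, hg', rfl⟩ := mem_image.1 hg
        rw [← m _ (e1 _ _), ← m g hg']
        exact e2 π _ g hg'
      have h2 := (mem_filter.1 hπ).2
      rw [m _ (e1 _ _)] at h2
      simp only [mem_biUnion, mem_filter, mem_univ, true_and, C, forall_mem_image, mem_union,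
        mem_sdiff]
      rcases lt_or_gt_of_ne (π.injective.ne h2) with h3 | h3
      · exact ⟨e π w, Or.inl ⟨e1 _ _, fun h => absurd (h1 _ h) (not_le.2 h3)⟩, fun g hg =>
          hg.elim (e2 π w g) fun hg => h3.le.trans (h1 g hg)⟩
      · exact ⟨_, Or.inr ⟨mem_image_of_mem _ (e1 _ _), fun h => absurd (e2 π w _ h) (not_le.2 h3)⟩,
          fun g hg => hg.elim (fun hg => h3.le.trans (e2 π w g hg)) (h1 g)⟩
    have c5 : #(univ.filter fun π => c.a w (e π w) ≠ c.a (c.a w d) (e π (c.a w d))) * #F ≤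
        2 * #(F.filter fun g => d * g ∉ F) * Fintype.card (V ≃ Fin (Fintype.card V)) := by
      refine (Nat.mul_le_mul c4 c3).trans ?_
      rw [sum_mul]
      refine (sum_le_card_nsmul _ _ _ fun g hg => card_isMin C (mem_image_of_mem _ ?_)).trans ?_
      · rcases mem_union.1 hg with hg | hg <;> simp [(mem_sdiff.1 hg).1]
      · exact Nat.mul_le_mul_right _ ((card_union_le _ _).trans (by omega))
    have c6 := (Nat.cast_le (α := ℝ)).2 c5
    push_cast at c6
    refine le_of_mul_le_mul_right (c6.trans ?_) hF'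
    nlinarith [mul_le_mul_of_nonneg_right (h d hd)
      (Nat.cast_nonneg (α := ℝ) (Fintype.card (V ≃ Fin (Fintype.card V))))]
  have : Nonempty (V ≃ Fin (Fintype.card V)) := ⟨Fintype.equivFin V⟩
  obtain ⟨π, -, hπ⟩ := exists_le_of_sum_le (s := univ) univ_nonempty
    (f := fun π => (#(c.V₀.filter fun w => ∃ d ∈ Δ,
      c.a w (e π w) ≠ c.a (c.a w d) (e π (c.a w d))) : ℝ))
    (g := fun _ => 2 * η * #Δ * Fintype.card V) (by
      have s1 : ∀ π, (#(c.V₀.filter fun w => ∃ d ∈ Δ,
          c.a w (e π w) ≠ c.a (c.a w d) (e π (c.a w d))) : ℝ) ≤ ∑ w ∈ c.V₀, ∑ d ∈ Δ,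
            if c.a w (e π w) ≠ c.a (c.a w d) (e π (c.a w d)) then 1 else 0 := fun π => by
        rw [card_filter]
        push_cast
        refine sum_le_sum fun w _ => ?_
        split_ifs with h
        · obtain ⟨d, hd, h⟩ := h
          refine le_trans ?_ (single_le_sum (fun _ _ => by positivity) hd)
          rw [if_pos h]
        · positivity
      refine (sum_le_sum fun π _ => s1 π).trans ?_
      rw [sum_comm]
      refine (sum_le_card_nsmul _ _ (#Δ * (2 * η * Fintype.card (V ≃ Fin (Fintype.card V))))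
        fun w hw => ?_).trans ?_
      · rw [sum_comm, ← nsmul_eq_mul]
        refine sum_le_card_nsmul _ _ _ fun d hd => ?_
        have := key w hw d hd
        rw [card_filter] at this
        push_cast at this
        exact this
      · have : (#c.V₀ : ℝ) ≤ Fintype.card V := by exact_mod_cast card_le_univ _
        simp only [sum_const, card_univ, nsmul_eq_mul]
        nlinarith [mul_le_mul_of_nonneg_right this (by positivity :
          (0 : ℝ) ≤ #Δ * (2 * η * Fintype.card (V ≃ Fin (Fintype.card V))))])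
  exact ⟨e π, e1 π, hπ⟩

end Pool.Agent.MP_3bdc7b_an.ca
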