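import Pool.Agent.MP_3bdc7b_an.ca.Surj2
import Pool.Agent.MP_3bdc7b_an.ca.Tile

/-!
Strongly irreducible subshifts over sofic groups whose gap set lies in an amenable subgroup.
-/

namespace Pool.Agent.MP_3bdc7b_an.ca

open Finset

universe u w

variable {G : Type u} [Group G] {A : Type*} {K : Finset G} {V : Type w}

open Classical in
lemma Chart.card_nbr (c : Chart K V) {M : Finset G} (h1 : (1 : G) ∈ K) (hM : M ⊆ K)
    (B : Finset V) : #(c.V₀.filter fun w => ∃ g ∈ M, c.a w g ∈ B) ≤ #M * #B := by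
  refine le_trans (card_le_card (t := M.biUnion fun g => c.V₀.filter fun w => c.a w g ∈ B)
    fun w hw => ?_) (card_biUnion_le.trans (sum_le_card_nsmul _ _ _ fun g hg => ?_))
  · obtain ⟨h, g, hg, h'⟩ := mem_filter.1 hw
    exact mem_biUnion.2 ⟨g, hg, mem_filter.2 ⟨h, h'⟩⟩
  · refine card_le_card_of_injOn (fun w => c.a w g) (fun w hw => (mem_filter.1 hw).2)
      fun w hw w' hw' e => ?_
    have := c.back (mem_filter.1 hw).1 (mem_filter.1 hw').1 h1 (hM hg) (hM hg) (by simpa) e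
    rwa [mul_inv_cancel, c.one w (mem_filter.1 hw).1] at this

open Classical in
lemma Chart.step3' (c : Chart K V) [Fintype A] [Nonempty A] {n : ℕ} {R P : Finset G} {p : G → A}
    {I : Finset V} {t : Finset (V → A)}
    (h : ∀ J ⊆ I, n ≤ #(t.filter fun y => I.filter (c.Occ P p y) = J) *
      Fintype.card A ^ #(image₂ c.a J R)) :
    (n : ℝ) * (1 + ((Fintype.card A : ℝ) ^ #R)⁻¹) ^ #I ≤ #t := by
  have hA : (1 : ℝ) ≤ Fintype.card A := by exact_mod_cast Fintype.card_pos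
  rw [card_eq_sum_card_fiberwise (f := fun y => I.filter (c.Occ P p y)) (t := I.powerset)
    fun y _ => mem_powerset.2 (filter_subset _ _), ← prod_const, prod_one_add, mul_sum]
  push_cast
  refine sum_le_sum fun J hJ => ?_
  have h1 : (n : ℝ) ≤ #(t.filter fun y => I.filter (c.Occ P p y) = J) *
      (Fintype.card A : ℝ) ^ #(image₂ c.a J R) := by exact_mod_cast h J (mem_powerset.1 hJ)
  rw [prod_const, inv_pow, ← div_eq_mul_inv, div_le_iff₀ (by positivity), ← pow_mul, mul_comm #R]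
  exact h1.trans (mul_le_mul_of_nonneg_left (pow_le_pow_right₀ hA (card_image₂_le _ _ _))
    (by positivity))

/-- a tiling of a model -/
structure Tiling (c : Chart K V) (F Δ : Finset G) where
  e : V → G
  U : Finset V
  mem : ∀ w, e w ∈ F
  good : ∀ w ∈ U, w ∈ c.V₀ ∧ c.a w (e w) ∈ c.V₀ ∧
    ∀ d ∈ Δ, c.a w (e w) = c.a (c.a w d) (e (c.a w d))
  one : (1 : G) ∈ K
  FK : ∀ f ∈ F, f ∈ K ∧ f⁻¹ ∈ K

namespace Tiling

variable {c : Chart K V} {F Δ : Finset G} (T : Tiling c F Δ)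

/-- the centre of the tile -/
def t (w : V) : V := c.a w (T.e w)

lemma back {w : V} (hw : w ∈ T.U) : c.a (T.t w) (T.e w)⁻¹ = w := by
  rw [t, c.mul w (T.good w hw).1 _ (T.FK _ (T.mem w)).1 _ (by simpa using T.one), mul_inv_cancel,
    c.one w (T.good w hw).1]

lemma gamma {u : V} (hu : u ∈ c.V₀) {W : Finset G} (h1 : W ⊆ K) (h2 : ∀ g ∈ W, ∀ f ∈ F, g * f ∈ K)
    (v : V) : ∃ γ, ∀ g ∈ W, T.t (c.a u g) = v → g * T.e (c.a u g) = γ := by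
  by_cases h : ∃ g ∈ W, T.t (c.a u g) = v
  · obtain ⟨g₀, hg₀, h⟩ := h
    refine ⟨_, fun g hg e => c.inj u hu (h2 g hg _ (T.mem _)) (h2 g₀ hg₀ _ (T.mem (c.a u g₀))) ?_⟩
    rw [← c.mul u hu g (h1 hg) _ (h2 g hg _ (T.mem _)),
      ← c.mul u hu g₀ (h1 hg₀) _ (h2 g₀ hg₀ _ (T.mem _))]
    exact e.trans h.symm
  · exact ⟨1, fun g hg e => absurd ⟨g, hg, e⟩ h⟩

variable [Fintype V] [Fintype A]

open Classical in
/-- the labelings that are admissible on every tile -/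
noncomputable def M (X : Set (G → A)) : Finset (V → A) :=
  univ.filter fun y => ∀ v, ∃ x ∈ X, ∀ w ∈ T.U, T.t w = v → y w = x (T.e w)⁻¹

variable {X : Set (G → A)}

lemma mem_M {y : V → A} : y ∈ T.M X ↔ ∀ v, ∃ x ∈ X, ∀ w ∈ T.U, T.t w = v → y w = x (T.e w)⁻¹ := by
  simp [M]

variable (hs : ∀ g, ∀ x ∈ X, shift g x ∈ X)
  (hΔ : ∀ x₁ ∈ X, ∀ x₂ ∈ X, ∀ Ω₁ Ω₂ : Finset G, (∀ a ∈ Ω₁, ∀ d ∈ Δ, a * d ∉ Ω₂) →
    ∃ x ∈ X, (∀ g ∈ Ω₁, x g = x₁ g) ∧ ∀ g ∈ Ω₂, x g = x₂ g)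
include hs hΔ

lemma glue {y : V → A} (hy : y ∈ T.M X) {u : V} (hu : u ∈ c.V₀) {W : Finset G} (h1 : W ⊆ K)
    (h2 : ∀ g ∈ W, ∀ f ∈ F, g * f ∈ K) :
    ∃ x ∈ X, ∀ g ∈ W, c.a u g ∈ T.U → y (c.a u g) = x g := by
  classical
  suffices H : ∀ L : Finset V, ∃ x ∈ X, ∀ g ∈ W, c.a u g ∈ T.U → T.t (c.a u g) ∈ L →
      y (c.a u g) = x g by
    obtain ⟨x, hx, h⟩ := H univ
    exact ⟨x, hx, fun g hg k => h g hg k (mem_univ _)⟩
  intro L
  induction L using Finset.induction_on with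
  | empty => exact ⟨_, (T.mem_M.1 hy u).choose_spec.1, by simp⟩
  | insert v L hv ih =>
    obtain ⟨x, hx, ih⟩ := ih
    obtain ⟨x', hx', h'⟩ := T.mem_M.1 hy v
    obtain ⟨γ, hγ⟩ := T.gamma hu h1 h2 v
    obtain ⟨z, hz, k1, k2⟩ := hΔ _ (hs γ _ hx') _ hx
      (W.filter fun g => c.a u g ∈ T.U ∧ T.t (c.a u g) = v)
      (W.filter fun g => c.a u g ∈ T.U ∧ T.t (c.a u g) ∈ L) fun g hg d hd k => by
        obtain ⟨hg, k3, k4⟩ := mem_filter.1 hg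
        obtain ⟨k, -, k5⟩ := mem_filter.1 k
        rw [← c.mul u hu g (h1 hg) d (h1 k), t, ← (T.good _ k3).2.2 d hd] at k5
        exact hv (k4 ▸ k5)
    refine ⟨z, hz, fun g hg k3 k4 => ?_⟩
    rcases mem_insert.1 k4 with k4 | k4
    · rw [k1 g (mem_filter.2 ⟨hg, k3, k4⟩), h' _ k3 k4, shift, ← hγ g hg k4]
      congr 1; group
    · rw [k2 g (mem_filter.2 ⟨hg, k3, k4⟩), ih g hg k3 k4]

open Classical in
lemma ins {P R : Finset G} {p : G → A} (hp : p ∈ X) (h1 : P ⊆ K) (h2 : ∀ g ∈ P, ∀ f ∈ F, g * f ∈ K)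
    (h3 : R ⊆ K) (h4 : ∀ g ∈ P, ∀ d ∈ Δ, g * d ∈ R) {y : V → A} (hy : y ∈ T.M X) {u : V}
    (hu : u ∈ c.V₀) (hU : ∀ g ∈ P, c.a u g ∈ T.U) :
    ∃ y' ∈ T.M X, c.Occ P p y' u ∧ ∀ w ∉ R.image (c.a u), y' w = y w := by
  have H : ∀ v, ∃ z ∈ X, (∀ g ∈ P, T.t (c.a u g) = v → z (T.e (c.a u g))⁻¹ = p g) ∧
      ∀ w ∈ T.U, T.t w = v → w ∉ R.image (c.a u) → z (T.e w)⁻¹ = y w := fun v => by
    obtain ⟨x, hx, h⟩ := T.mem_M.1 hy v
    obtain ⟨γ, hγ⟩ := T.gamma hu h1 h2 v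
    obtain ⟨z, hz, k1, k2⟩ := hΔ _ (hs γ⁻¹ _ hp) _ hx
      ((P.filter fun g => T.t (c.a u g) = v).image fun g => (T.e (c.a u g))⁻¹)
      ((T.U.filter fun w => T.t w = v ∧ w ∉ R.image (c.a u)).image fun w => (T.e w)⁻¹)
      fun _ hg' d hd k => by
        obtain ⟨g, hg, rfl⟩ := mem_image.1 hg'
        obtain ⟨hg, k3⟩ := mem_filter.1 hg
        obtain ⟨w, hw, k⟩ := mem_image.1 k
        obtain ⟨hw, k4, k5⟩ := mem_filter.1 hw
        refine k5 (mem_image.2 ⟨_, h4 g hg d hd, ?_⟩)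
        rw [← T.back hw, k, ← c.mul (T.t w) (T.good w hw).2.1 _ (T.FK _ (T.mem _)).2 d
          (k ▸ (T.FK _ (T.mem w)).2), k4, ← k3, T.back (hU g hg),
          c.mul u hu g (h1 hg) d (h3 (h4 g hg d hd))]
    refine ⟨z, hz, fun g hg k => ?_, fun w hw k k' => ?_⟩
    · rw [k1 _ (mem_image_of_mem _ (mem_filter.2 ⟨hg, k⟩)), shift_inv_apply, ← hγ g hg k,
        mul_inv_cancel_right]
    · rw [k2 _ (mem_image_of_mem _ (mem_filter.2 ⟨hw, k, k'⟩)), h w hw k]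
  choose z z1 z2 z3 using H
  refine ⟨fun w => if w ∈ T.U then z (T.t w) (T.e w)⁻¹ else y w, T.mem_M.2 fun v =>
    ⟨_, z1 v, fun w hw k => by rw [if_pos hw, k]⟩, fun g hg =>
      (if_pos (hU g hg)).trans (z2 _ g hg rfl), fun w hw => ?_⟩
  by_cases h : w ∈ T.U
  · exact (if_pos h).trans (z3 _ w h rfl hw)
  · exact if_neg h

open Classical in
lemma insJ {P R : Finset G} {p : G → A} (hp : p ∈ X) (h1 : P ⊆ R)
    (h2 : ∀ g ∈ P, ∀ f ∈ F, g * f ∈ K) (h3 : R ⊆ K) (h4 : ∀ g ∈ P, ∀ d ∈ Δ, g * d ∈ R)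
    {y : V → A} (hy : y ∈ T.M X) (J : Finset V) (hJ : c.Sep R J)
    (hU : ∀ u ∈ J, ∀ g ∈ P, c.a u g ∈ T.U) :
    ∃ y' ∈ T.M X, (∀ v ∈ J, c.Occ P p y' v) ∧ ∀ w ∉ image₂ c.a J R, y' w = y w := by
  induction J using Finset.induction_on with
  | empty => exact ⟨y, hy, by simp, fun _ _ => rfl⟩
  | insert u J hu ih =>
    obtain ⟨y₁, k1, k2, k3⟩ := ih ⟨(subset_insert _ _).trans hJ.1, fun v hv v' hv' =>
      hJ.2 v (mem_insert_of_mem hv) v' (mem_insert_of_mem hv')⟩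
      fun v hv => hU v (mem_insert_of_mem hv)
    obtain ⟨y₂, k4, k5, k6⟩ := T.ins hs hΔ hp (h1.trans h3) h2 h3 h4 k1 (hJ.1 (mem_insert_self _ _))
      (hU u (mem_insert_self _ _))
    refine ⟨y₂, k4, fun v hv => ?_, fun w hw => ?_⟩
    · rcases mem_insert.1 hv with rfl | hv'
      · exact k5
      · intro g hg
        rw [k6 _ fun h => ?_, k2 v hv' g hg]
        obtain ⟨r, hr, e⟩ := mem_image.1 h
        exact hu (hJ.2 _ (mem_insert_self _ _) _ hv _ hr _ (h1 hg) e ▸ hv')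
    · rw [k6 w fun h => ?_, k3 w fun h => hw (image₂_subset_right (subset_insert _ _) h)]
      obtain ⟨r, hr, rfl⟩ := mem_image.1 h
      exact hw (mem_image₂_of_mem (mem_insert_self _ _) hr)

open Classical in
lemma step {τ : X → X} {Mt N P W : Finset G} {μ : (G → A) → A} {p : G → A}
    (hμ : ∀ (w : X) g (u : G → A), (∀ m ∈ Mt, u m = w.1 (g * m)) → μ u = (τ w).1 g)
    (hN : ∀ w w' : X, (∀ n ∈ N, (τ w).1 n = (τ w').1 n) → w.1 1 = w'.1 1)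
    (hP : ∀ w : X, ¬∀ g ∈ P, (τ w).1 g = p g) (hp : p ∈ X) (k1 : W ⊆ K)
    (k2 : ∀ g ∈ W, ∀ f ∈ F, g * f ∈ K) (k3 : (1 : G) ∈ W)
    (k4 : ∀ g ∈ N ∪ P, g ∈ W ∧ ∀ m ∈ Mt, g * m ∈ W)
    (k5 : ∀ f ∈ F, ∀ m ∈ Mt, f⁻¹ * m ∈ K ∧ ∀ f' ∈ F, f⁻¹ * m * f' ∈ K) {D : Finset V}
    (hD : ∀ u ∈ D, u ∈ c.V₀ ∧ ∀ g ∈ W, c.a u g ∈ T.U) :
    #(T.M X) ≤ #((T.M X).filter fun y => ∀ v ∈ D, ¬c.Occ P p y v) * Fintype.card A ^ #Dᶜ := by
  have H : ∀ y, ∀ v, ∃ x : X, y ∈ T.M X → v ∈ c.V₀ → ∀ f ∈ F, ∀ m ∈ Mt, c.a v (f⁻¹ * m) ∈ T.U →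
      y (c.a v (f⁻¹ * m)) = x.1 (f⁻¹ * m) := fun y v => by
    by_cases h : y ∈ T.M X ∧ v ∈ c.V₀
    · obtain ⟨x, hx, h⟩ := T.glue hs hΔ h.1 h.2 (W := image₂ (fun f m => f⁻¹ * m) F Mt)
        (fun g hg => by
          obtain ⟨f, hf, m, hm, rfl⟩ := mem_image₂.1 hg
          exact (k5 f hf m hm).1) fun g hg => by
          obtain ⟨f, hf, m, hm, rfl⟩ := mem_image₂.1 hg
          exact (k5 f hf m hm).2
      exact ⟨⟨x, hx⟩, fun _ _ f hf m hm => h _ (mem_image₂_of_mem hf hm)⟩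
    · exact ⟨⟨p, hp⟩, fun h1 h2 => absurd ⟨h1, h2⟩ h⟩
  choose x hx using H
  let f : (V → A) → V → A := fun y w => if w ∈ T.U then (τ (x y (T.t w))).1 (T.e w)⁻¹ else y w
  have key : ∀ y ∈ T.M X, ∀ u ∈ D, ∃ z : X, y u = z.1 1 ∧ ∀ g ∈ N ∪ P,
      f y (c.a u g) = (τ z).1 g := fun y hy u hu => by
    obtain ⟨hu, hU⟩ := hD u hu
    obtain ⟨z, hz, h⟩ := T.glue hs hΔ hy hu k1 k2
    refine ⟨⟨z, hz⟩, (congrArg y (c.one u hu).symm).trans (h 1 k3 (hU 1 k3)), fun g hg => ?_⟩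
    have hw := hU g (k4 g hg).1
    have e1 : ∀ m ∈ Mt, c.a (c.a u g) m = c.a u (g * m) := fun m hm =>
      c.mul u hu g (k1 (k4 g hg).1) m (k1 ((k4 g hg).2 m hm))
    rw [← hμ ⟨z, hz⟩ g (fun h => y (c.a (c.a u g) h)) fun m hm => by
      rw [e1 m hm, h _ ((k4 g hg).2 m hm) (hU _ ((k4 g hg).2 m hm))]]
    refine (if_pos hw).trans (hμ _ _ _ fun m hm => ?_).symm
    have e2 : c.a (T.t (c.a u g)) ((T.e (c.a u g))⁻¹ * m) = c.a (c.a u g) m := by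
      rw [← c.mul (T.t (c.a u g)) (T.good _ hw).2.1 _ (T.FK _ (T.mem _)).2 m
        (k5 _ (T.mem _) m hm).1, T.back hw]
    exact (congrArg y e2.symm).trans (hx y (T.t (c.a u g)) hy (T.good _ hw).2.1 _ (T.mem _) m hm
      (by rw [e2, e1 m hm]; exact hU _ ((k4 g hg).2 m hm)))
  refine card_le_of_agree _ _ _ f (fun y hy => mem_filter.2 ⟨T.mem_M.2 fun v =>
    ⟨_, (τ (x y v)).2, fun w hw k => (if_pos hw).trans (by rw [k])⟩, fun v hv h => ?_⟩)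
    fun y hy y' hy' e v hv => ?_
  · obtain ⟨z, -, k⟩ := key y hy v hv
    exact hP z fun g hg => (k g (mem_union_right _ hg)).symm.trans (h g hg)
  · obtain ⟨z, k6, k7⟩ := key y hy v (by simpa using hv)
    obtain ⟨z', k8, k9⟩ := key y' hy' v (by simpa using hv)
    rw [k6, k8]
    exact hN z z' fun n hn => by
      rw [← k7 n (mem_union_left _ hn), ← k9 n (mem_union_left _ hn), e]

end Tiling

open Classical in
lemma folner_sub {H : Subgroup G} (hH : IsAmenable H) {Δ : Finset G} (hΔ : ∀ d ∈ Δ, d ∈ H)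
    {η : ℝ} (hη : 0 < η) : ∃ F : Finset G, F.Nonempty ∧
      ∀ d ∈ Δ, (#(F.filter fun g => d * g ∉ F) : ℝ) ≤ η * #F := by
  obtain ⟨F, h1, h2⟩ := hH (Δ.subtype (· ∈ H)) η hη
  refine ⟨F.map (Function.Embedding.subtype _), by simpa using h1, fun d hd => ?_⟩
  rw [card_map, filter_map, card_map]
  convert h2 ⟨d, hΔ d hd⟩ (by simpa using hd) using 2
  rw [← Set.ncard_coe_finset]
  congr 1
  ext g
  simp only [coe_filter, Function.comp_apply, Function.Embedding.subtype_apply, Set.mem_ofPred_eq]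
  refine and_congr_right fun _ => not_congr ?_
  exact mem_map' (Function.Embedding.subtype _) (a := ⟨d, hΔ d hd⟩ * g)

lemma arith {a b u d n W F Δ ε η θ : ℝ} (hn : 0 < n) (p1 : 0 ≤ W) (p2 : 0 ≤ F) (p3 : 0 ≤ Δ)
    (hε : 0 < ε) (hη : 0 < η) (h1 : η * (8 * (W + 1) * (Δ + 1)) = θ)
    (h2 : ε * (4 * (W + 1) * (F + 1)) = θ) (c2 : d ≤ a + W * u) (c3 : u ≤ a + F * a + b)
    (c4 : a ≤ ε * n) (c5 : b ≤ 2 * η * Δ * n) : d < θ * n := by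
  have hθ : 0 < θ := by rw [← h1]; positivity
  have d1 : u ≤ (F + 1) * (ε * n) + 2 * η * Δ * n := by
    nlinarith [mul_le_mul_of_nonneg_left c4 p2]
  have d2 : d ≤ (W + 1) * ((F + 1) * (ε * n)) + W * (2 * η * Δ * n) := by
    nlinarith [mul_le_mul_of_nonneg_left d1 p1, mul_nonneg p2 (mul_pos hε hn).le]
  have d3 : (W + 1) * ((F + 1) * (ε * n)) = θ * n / 4 := by rw [← h2]; ring
  have d4 : W * (2 * η * Δ * n) ≤ θ * n / 4 := by
    rw [← h1]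
    nlinarith [mul_nonneg (mul_pos hη hn).le p1, mul_nonneg (mul_pos hη hn).le p3, mul_pos hη hn]
  nlinarith [mul_pos hθ hn]

lemma arith' {a d n i c m : ℕ} (h1 : a * (c * m + 1) < n) (h2 : a + d = n) (h3 : d ≤ i * c) :
    m * a < i := by
  by_contra h
  nlinarith [Nat.mul_le_mul_right c (not_lt.1 h)]

theorem surj_of_amenable_gap (hG : IsSofic G) [Finite A] [TopologicalSpace A] [DiscreteTopology A]
    {X : Set (G → A)} (hc : IsClosed X) (hs : ∀ g, ∀ x ∈ X, shift g x ∈ X) {H : Subgroup G}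
    (hH : IsAmenable H) {Δ : Finset G} (hΔH : ∀ d ∈ Δ, d ∈ H)
    (hΔ : ∀ x₁ ∈ X, ∀ x₂ ∈ X, ∀ Ω₁ Ω₂ : Finset G, (∀ a ∈ Ω₁, ∀ d ∈ Δ, a * d ∉ Ω₂) →
      ∃ x ∈ X, (∀ g ∈ Ω₁, x g = x₁ g) ∧ ∀ g ∈ Ω₂, x g = x₂ g) : Surjunctive X := by
  classical
  intro τ hτc hτ hinj x₀
  by_contra hx₀
  have := Fintype.ofFinite A
  have : Nonempty A := ⟨x₀.1 1⟩
  obtain ⟨Mt, N, P, μ, hμ, hN, hP⟩ := exists_local hc hs τ hτc hτ hinj x₀ hx₀
  obtain ⟨R, hR1, hPR, hR⟩ : ∃ R : Finset G, 1 ∈ R ∧ P ⊆ R ∧ ∀ a ∈ P, ∀ d ∈ Δ, a * d ∈ R :=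
    ⟨insert 1 (P ∪ image₂ (· * ·) P Δ), by simp, fun a ha => by simp [ha], fun a ha d hd =>
      mem_insert_of_mem (mem_union_right _ (mem_image₂_of_mem ha hd))⟩
  obtain ⟨W, hW1, hW⟩ : ∃ W : Finset G, 1 ∈ W ∧ ∀ g ∈ N ∪ P, g ∈ W ∧ ∀ m ∈ Mt, g * m ∈ W :=
    ⟨insert 1 (N ∪ P ∪ image₂ (· * ·) (N ∪ P) Mt), by simp, fun g hg =>
      ⟨mem_insert_of_mem (mem_union_left _ hg), fun m hm =>
        mem_insert_of_mem (mem_union_right _ (mem_image₂_of_mem hg hm))⟩⟩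
  set α : ℝ := (Fintype.card A : ℝ) with hα
  have hα1 : 1 ≤ α := by rw [hα]; exact_mod_cast Fintype.card_pos
  set δ : ℝ := 1 + (α ^ #R)⁻¹ with hδ
  have hδ1 : 1 < δ := lt_add_of_pos_right _ (by positivity)
  obtain ⟨m, hm⟩ := pow_unbounded_of_one_lt α hδ1
  let SS := image₂ (fun s s' => s * s'⁻¹) R R
  obtain ⟨θ, hθ, hθ'⟩ : ∃ θ : ℝ, 0 < θ ∧ θ * (#SS * m + 1) = 1 :=
    ⟨(#SS * m + 1)⁻¹, by positivity, inv_mul_cancel₀ (by positivity)⟩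
  obtain ⟨η, hη, hη'⟩ : ∃ η : ℝ, 0 < η ∧ η * (8 * (#W + 1) * (#Δ + 1)) = θ :=
    ⟨θ / _, by positivity, div_mul_cancel₀ _ (by positivity)⟩
  obtain ⟨F, hF, hF'⟩ := folner_sub hH hΔH hη
  obtain ⟨ε, hε, hε'⟩ : ∃ ε : ℝ, 0 < ε ∧ ε * (4 * (#W + 1) * (#F + 1)) = θ :=
    ⟨θ / _, by positivity, div_mul_cancel₀ _ (by positivity)⟩
  obtain ⟨K, k1, k2, k3, k4, k5, k6, k7, k8, k9⟩ : ∃ K : Finset G, W ⊆ K ∧ R ⊆ K ∧ SS ⊆ K ∧ Δ ⊆ K ∧
      F ⊆ K ∧ (∀ f ∈ F, f⁻¹ ∈ K) ∧ (∀ g ∈ W ∪ Δ, ∀ f ∈ F, g * f ∈ K) ∧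
      (∀ f ∈ F, ∀ m ∈ Mt, f⁻¹ * m ∈ K) ∧ ∀ f ∈ F, ∀ m ∈ Mt, ∀ f' ∈ F, f⁻¹ * m * f' ∈ K :=
    ⟨W ∪ R ∪ SS ∪ Δ ∪ F ∪ F.image (·⁻¹) ∪ image₂ (· * ·) (W ∪ Δ) F ∪
      image₂ (fun f m => f⁻¹ * m) F Mt ∪ image₂ (· * ·) (image₂ (fun f m => f⁻¹ * m) F Mt) F,
      fun a ha => by simp [ha], fun a ha => by simp [ha], fun a ha => by simp [ha],
      fun a ha => by simp [ha], fun a ha => by simp [ha], fun a ha => by simp [ha],
      fun g hg f hf => mem_union_left _ (mem_union_left _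
        (mem_union_right _ (mem_image₂_of_mem hg hf))),
      fun f hf m hm => mem_union_left _ (mem_union_right _ (mem_image₂_of_mem hf hm)),
      fun f hf m hm f' hf' => mem_union_right _ (mem_image₂_of_mem (mem_image₂_of_mem hf hm) hf')⟩
  obtain ⟨V, _, hn, c, hc'⟩ : ∃ (V : Type) (_ : Fintype V) (_ : 0 < Fintype.card V)
      (c : Chart K V), (Fintype.card V - #c.V₀ : ℝ) ≤ ε * Fintype.card V := by
    obtain ⟨n, hn, c, h⟩ := exists_chart hG K ε hε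
    exact ⟨Fin n, inferInstance, by simpa, c, by simpa using h⟩
  obtain ⟨e, e1, e2⟩ := c.exists_tiling hF hη.le hF' k5 k4 fun d hd => k7 d (mem_union_right _ hd)
  let T : Tiling c F Δ := ⟨e, univ.filter fun w => w ∈ c.V₀ ∧ c.a w (e w) ∈ c.V₀ ∧
    ∀ d ∈ Δ, c.a w (e w) = c.a (c.a w d) (e (c.a w d)), e1, fun w hw => (mem_filter.1 hw).2,
    k1 hW1, fun f hf => ⟨k5 hf, k6 f hf⟩⟩
  let D := c.V₀.filter fun u => ∀ g ∈ W, c.a u g ∈ T.U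
  obtain ⟨I, hID, hI, hI'⟩ := c.exists_max_sep hR1 (filter_subset _ _ : D ⊆ c.V₀)
  have s1 := (Nat.cast_le (α := ℝ)).2 (T.step hs hΔ hμ hN hP x₀.2 k1
    (fun g hg => k7 g (mem_union_left _ hg)) hW1 hW (fun f hf m hm => ⟨k8 f hf m hm, k9 f hf m hm⟩)
    (D := D) fun u hu => mem_filter.1 hu)
  have hPW : P ⊆ W := fun g hg => (hW g (mem_union_right _ hg)).1
  have s3 := c.step3' fun J hJ => c.step2' (s := (T.M X).filter fun y =>
    ∀ v ∈ D, ¬c.Occ P x₀ y v) hPR hI hJ (fun y hy v hv => (mem_filter.1 hy).2 v (hID hv))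
    fun y hy => T.insJ hs hΔ x₀.2 hPR (fun g hg => k7 g (mem_union_left _ (hPW hg))) k2 hR
      (mem_filter.1 hy).1 J ⟨hJ.trans hI.1, fun v hv v' hv' => hI.2 v (hJ hv) v' (hJ hv')⟩
      fun u hu g hg => (mem_filter.1 (hID (hJ hu))).2 g (hPW hg)
  push_cast at s1
  rw [← hα] at s1 s3
  rw [← hδ] at s3
  have s4 : (0 : ℝ) < #(T.M X) := by
    have : (fun w => x₀.1 (e w)⁻¹) ∈ T.M X := T.mem_M.2 fun _ => ⟨_, x₀.2, fun _ _ _ => rfl⟩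
    exact_mod_cast card_pos.2 ⟨_, this⟩
  have s5 : δ ^ #I ≤ α ^ #Dᶜ := by
    refine le_of_mul_le_mul_left ?_ s4
    calc _ ≤ _ := mul_le_mul_of_nonneg_right s1 (by positivity)
      _ = (_ * δ ^ #I) * α ^ #Dᶜ := by ring
      _ ≤ _ := mul_le_mul_of_nonneg_right s3 (by positivity)
  have c1 : #D ≤ #I * #SS := by
    refine le_trans (card_le_card fun v hv => ?_) (card_image₂_le c.a _ _)
    obtain ⟨v', hv', s, hs, s', hs', e⟩ := hI' v hv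
    exact mem_image₂.2 ⟨v', hv', _, mem_image₂_of_mem hs' hs, c.back (hI.1 hv')
      (mem_filter.1 hv).1 (k1 hW1) (k2 hs') (k2 hs) (k3 (mem_image₂_of_mem hs' hs)) e.symm⟩
  have c2 : #Dᶜ ≤ #c.V₀ᶜ + #W * #T.Uᶜ := by
    refine le_trans (card_le_card fun v hv => ?_) ((card_union_le _ _).trans
      (Nat.add_le_add_left (c.card_nbr (k1 hW1) k1 T.Uᶜ) _))
    by_cases h : v ∈ c.V₀
    · simpa [D, h] using hv
    · simp [h]
  have c3 : #T.Uᶜ ≤ #c.V₀ᶜ + #F * #c.V₀ᶜ + #(c.V₀.filter fun w => ∃ d ∈ Δ,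
      c.a w (e w) ≠ c.a (c.a w d) (e (c.a w d))) := by
    refine le_trans (card_le_card fun v hv => ?_) ((card_union_le _ _).trans
      (Nat.add_le_add_right ((card_union_le _ _).trans
        (Nat.add_le_add_left (c.card_nbr (k1 hW1) k5 c.V₀ᶜ) _)) _))
    by_cases h : v ∈ c.V₀
    · by_cases h' : c.a v (e v) ∈ c.V₀
      · refine mem_union_right _ ?_
        simpa [T, h, h'] using hv
      · exact mem_union_left _ (mem_union_right _ (mem_filter.2 ⟨h, _, e1 v, mem_compl.2 h'⟩))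
    · simp [h]
  have c4 : (#c.V₀ᶜ : ℝ) ≤ ε * Fintype.card V := by
    have : (#c.V₀ᶜ : ℝ) + #c.V₀ = Fintype.card V := by exact_mod_cast card_compl_add_card c.V₀
    linarith only [this, hc']
  have c5 : (#Dᶜ : ℝ) < θ * Fintype.card V :=
    arith (u := #T.Uᶜ) (by exact_mod_cast hn) (by positivity) (by positivity) (by positivity) hε hη
      hη' hε' (by exact_mod_cast c2) (by exact_mod_cast c3) c4 e2
  have c6 : #Dᶜ * (#SS * m + 1) < Fintype.card V := by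
    have := mul_lt_mul_of_pos_right c5 (by positivity : (0 : ℝ) < #SS * m + 1)
    rw [mul_right_comm, hθ', one_mul] at this
    exact_mod_cast this
  have c8 := arith' c6 (card_compl_add_card D) c1
  refine absurd s5 (not_le.2 ?_)
  calc _ ≤ (δ ^ m) ^ #Dᶜ := pow_le_pow_left₀ (by positivity) hm.le _
    _ < _ := by rw [← pow_mul]; exact pow_lt_pow_right₀ hδ1 c8

end Pool.Agent.MP_3bdc7b_an.ca
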