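import Mathlib.Algebra.BigOperators.Group.Finset.Basic
import Mathlib.Algebra.Order.BigOperators.Group.Finset
import Mathlib.Algebra.BigOperators.Ring.Finset
import Mathlib.Data.Multiset.Bind
import Mathlib.Data.Real.Basic
import Mathlib.Tactic.Linarith
import Mathlib.Tactic.FieldSimp
import Mathlib.Tactic.Ring
import Mathlib.Tactic.Positivity

/-!
A replication game on finite families of directed edges of a tree, in abstract form.
-/

namespace Pool.Agent.MP_3bdc7b_an.ca

open Multiset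

/-- abstract data: directed edges `D`, directions `S`, a distance, the relation `beh q e`
(`q` lies behind `e`), symmetries, and families of symmetries moving `e` onto the edges that
enter one vertex -/
structure Geo (D S : Type*) where
  dist : D → D → ℕ
  beh : D → D → Prop
  Iso : (D ≃ D) → Prop
  mv : D → (S → D ≃ D) → Prop
  dist_comm : ∀ q e, dist q e = dist e q
  beh_irrefl : ∀ e, ¬ beh e e
  iso_symm : ∀ g, Iso g → Iso g.symm
  iso_dist : ∀ g, Iso g → ∀ q e, dist (g q) (g e) = dist q e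
  iso_beh : ∀ g, Iso g → ∀ q e, beh q e → beh (g q) (g e)
  mv_iso : ∀ e γ, mv e γ → ∀ t, Iso (γ t)
  mv_ex : ∀ e, ∃ γ, mv e γ
  mv_dist : ∀ e γ, mv e γ → ∀ t t', t ≠ t' → ∀ q q', beh q e → beh q' e →
    dist q e + dist q' e + 2 ≤ dist (γ t q) (γ t' q')
  mv_beh : ∀ e γ, mv e γ → ∀ t t', t ≠ t' → ∀ q q', beh q e → beh q' e → beh e q' →
    beh (γ t q) (γ t' q')

namespace Geo

variable {D S : Type*} (M : Geo D S)

/-- every element of `F` lies behind every element of `R` -/
def Beh (F R : Multiset D) : Prop := ∀ q ∈ F, ∀ r ∈ R, M.beh q r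

/-- `F` and `R` are at distance at least `n` -/
def Far (n : ℕ) (F R : Multiset D) : Prop := ∀ q ∈ F, ∀ r ∈ R, n ≤ M.dist q r

/-- the edges of `F` leave a common subtree -/
def Anti (F : Multiset D) : Prop := F.Nodup ∧ ∀ q ∈ F, ∀ e ∈ F, q ≠ e → M.beh q e

variable {M}

lemma anti_add {F R : Multiset D} :
    M.Anti (F + R) ↔ M.Anti F ∧ M.Anti R ∧ M.Beh F R ∧ M.Beh R F := by
  constructor
  · rintro ⟨h1, h2⟩
    rw [nodup_add] at h1
    have hne : ∀ q ∈ F, ∀ r ∈ R, q ≠ r := fun q hq r hr h =>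
      disjoint_left.1 h1.2.2 hq (h ▸ hr)
    exact ⟨⟨h1.1, fun q hq e he => h2 q (mem_add.2 (.inl hq)) e (mem_add.2 (.inl he))⟩,
      ⟨h1.2.1, fun q hq e he => h2 q (mem_add.2 (.inr hq)) e (mem_add.2 (.inr he))⟩,
      fun q hq r hr => h2 q (mem_add.2 (.inl hq)) r (mem_add.2 (.inr hr)) (hne q hq r hr),
      fun r hr q hq => h2 r (mem_add.2 (.inr hr)) q (mem_add.2 (.inl hq)) (hne q hq r hr).symm⟩
  · rintro ⟨h1, h2, h3, h4⟩
    refine ⟨nodup_add.2 ⟨h1.1, h2.1, disjoint_left.2 fun {q} hq hr =>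
      M.beh_irrefl q (h3 q hq q hr)⟩, fun q hq e he hne => ?_⟩
    rcases mem_add.1 hq with hq | hq <;> rcases mem_add.1 he with he | he
    exacts [h1.2 q hq e he hne, h3 q hq e he, h4 q hq e he, h2.2 q hq e he hne]

lemma anti_zero : M.Anti 0 := ⟨nodup_zero, by simp⟩

lemma anti_single (e : D) : M.Anti {e} := ⟨nodup_singleton e, by simp⟩

lemma anti_cons {e : D} {F : Multiset D} :
    M.Anti (e ::ₘ F) ↔ M.Anti F ∧ ∀ q ∈ F, M.beh q e ∧ M.beh e q := by
  rw [← singleton_add, anti_add]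
  simp only [Beh, mem_singleton, forall_eq]
  exact ⟨fun h => ⟨h.2.1, fun q hq => ⟨h.2.2.2 q hq, h.2.2.1 q hq⟩⟩,
    fun h => ⟨anti_single e, h.1, fun q hq => (h.2 q hq).2, fun q hq => (h.2 q hq).1⟩⟩

lemma Anti.map {F : Multiset D} (h : M.Anti F) {g : D ≃ D} (hg : M.Iso g) :
    M.Anti (F.map g) := by
  refine ⟨h.1.map g.injective, fun q₀ hq₀ e₀ he₀ hne => ?_⟩
  obtain ⟨q, hq, rfl⟩ := mem_map.1 hq₀
  obtain ⟨e, he, rfl⟩ := mem_map.1 he₀
  exact M.iso_beh g hg _ _ (h.2 q hq e he fun h' => hne (h' ▸ rfl))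

lemma Far.map {n : ℕ} {F R : Multiset D} (h : M.Far n F R) {g : D ≃ D} (hg : M.Iso g) :
    M.Far n (F.map g) (R.map g) := by
  intro q₀ hq₀ r₀ hr₀
  obtain ⟨q, hq, rfl⟩ := mem_map.1 hq₀
  obtain ⟨r, hr, rfl⟩ := mem_map.1 hr₀
  rw [M.iso_dist g hg]; exact h q hq r hr

lemma Beh.map {F R : Multiset D} (h : M.Beh F R) {g : D ≃ D} (hg : M.Iso g) :
    M.Beh (F.map g) (R.map g) := by
  intro q₀ hq₀ r₀ hr₀
  obtain ⟨q, hq, rfl⟩ := mem_map.1 hq₀
  obtain ⟨r, hr, rfl⟩ := mem_map.1 hr₀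
  exact M.iso_beh g hg _ _ (h q hq r hr)

/-- the union of the copies of `F` -/
def star (s : Finset S) (γ : S → D ≃ D) (F : Multiset D) : Multiset D := ∑ t ∈ s, F.map (γ t)

lemma mem_star {s : Finset S} {γ : S → D ≃ D} {F : Multiset D} {q : D} :
    q ∈ star s γ F ↔ ∃ t ∈ s, ∃ r ∈ F, γ t r = q := by
  simp [star, Multiset.mem_sum]

lemma star_add (s : Finset S) (γ : S → D ≃ D) (F R : Multiset D) :
    star s γ (F + R) = star s γ F + star s γ R := by
  simp [star, Finset.sum_add_distrib]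

lemma star_insert [DecidableEq S] {s : Finset S} {t : S} (ht : t ∉ s) (γ : S → D ≃ D)
    (F : Multiset D) : star (insert t s) γ F = F.map (γ t) + star s γ F := by
  simp [star, Finset.sum_insert ht]

lemma anti_star {e : D} {F : Multiset D} (h : M.Anti (e ::ₘ F)) {γ : S → D ≃ D}
    (hγ : M.mv e γ) (s : Finset S) : M.Anti (star s γ F) := by
  classical
  rw [anti_cons] at h
  induction s using Finset.induction_on with
  | empty => simpa [star] using anti_zero
  | insert t s ht ih =>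
    rw [star_insert ht, anti_add]
    refine ⟨h.1.map (M.mv_iso e γ hγ t), ih, fun q₀ hq₀ r₀ hr₀ => ?_, fun r₀ hr₀ q₀ hq₀ => ?_⟩
    all_goals
      obtain ⟨q, hq, rfl⟩ := mem_map.1 hq₀
      obtain ⟨t', ht', r, hr, rfl⟩ := mem_star.1 hr₀
      have hne : t ≠ t' := fun h' => ht (h' ▸ ht')
    · exact M.mv_beh e γ hγ t t' hne q r (h.2 q hq).1 (h.2 r hr).1 (h.2 r hr).2
    · exact M.mv_beh e γ hγ t' t hne.symm r q (h.2 r hr).1 (h.2 q hq).1 (h.2 q hq).2

/-- copies of far families are far -/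
lemma far_star {n : ℕ} {e : D} {F R : Multiset D} {γ : S → D ≃ D} (hγ : M.mv e γ)
    (hF : ∀ q ∈ F, M.beh q e) (hR : ∀ r ∈ R, M.beh r e ∧ n ≤ M.dist r e) (h : M.Far n F R)
    (s : Finset S) : M.Far n (star s γ F) (star s γ R) := by
  intro q₀ hq₀ r₀ hr₀
  obtain ⟨t, -, q, hq, rfl⟩ := mem_star.1 hq₀
  obtain ⟨t', -, r, hr, rfl⟩ := mem_star.1 hr₀
  by_cases hne : t = t'
  · subst hne
    rw [M.iso_dist _ (M.mv_iso e γ hγ t)]; exact h q hq r hr
  · have := M.mv_dist e γ hγ t t' hne q r (hF q hq) (hR r hr).1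
    have := (hR r hr).2
    omega

variable [Fintype S] (M)

/-- the rules of the game with splitting distance `n` -/
structure Rules (n : ℕ) (P : Multiset D → Prop) : Prop where
  zero : P 0
  iso : ∀ F g, M.Iso g → P F → P (F.map g)
  split : ∀ F R, M.Anti (F + R) → M.Far n F R → P F → P R → P (F + R)
  move : ∀ e F γ, M.Anti (e ::ₘ F) → M.mv e γ → P (star Finset.univ γ F) → P (e ::ₘ F)

variable {M}

lemma Rules.star {n m : ℕ} {P : Multiset D → Prop} (hP : M.Rules m P) (hm : m ≤ 2 * n + 2)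
    {e : D} {R : Multiset D} (h : M.Anti (e ::ₘ R)) (hR : ∀ r ∈ R, n ≤ M.dist r e)
    {γ : S → D ≃ D} (hγ : M.mv e γ) (hPR : P R) (s : Finset S) : P (star s γ R) := by
  classical
  induction s using Finset.induction_on with
  | empty => simpa [Geo.star] using hP.zero
  | insert t s ht ih =>
    have ha := anti_star h hγ (insert t s)
    rw [star_insert ht] at ha ⊢
    refine hP.split _ _ ha (fun q₀ hq₀ r₀ hr₀ => ?_) (hP.iso _ _ (M.mv_iso e γ hγ t) hPR) ih
    obtain ⟨q, hq, rfl⟩ := mem_map.1 hq₀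
    obtain ⟨t', ht', r, hr, rfl⟩ := mem_star.1 hr₀
    have h' := (anti_cons.1 h).2
    have := M.mv_dist e γ hγ t t' (fun h' => ht (h' ▸ ht')) q r (h' q hq).1 (h' r hr).1
    have := hR q hq
    have := hR r hr
    omega

/-- the game is won for every splitting distance -/
theorem win (n : ℕ) : ∀ P, M.Rules n P → ∀ F, M.Anti F → P F := by
  induction n with
  | zero =>
    intro P hP F
    induction F using Multiset.induction_on with
    | empty => exact fun _ => hP.zero
    | cons e F ih =>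
      intro h
      obtain ⟨γ, hγ⟩ := M.mv_ex e
      have h1 : P {e} := hP.move e 0 γ (anti_single e) hγ (by simpa [star] using hP.zero)
      rw [← singleton_add] at h ⊢
      exact hP.split _ _ h (fun _ _ _ _ => Nat.zero_le _) h1 (ih (anti_add.1 h).2.1)
  | succ n ih =>
    intro P hP F hF
    have key : M.Rules n fun B => ∀ R, M.Anti (B + R) → M.Far n B R → P R → P (B + R) := by
      refine ⟨fun R _ _ h => by simpa using h, fun B g hg hB R h1 h2 h3 => ?_,
        fun B C h0 hBC hB hC R h1 h2 h3 => ?_, fun e B γ h0 hγ hB R h1 h2 h3 => ?_⟩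
      · have hg' := M.iso_symm g hg
        have e1 : (B.map g).map g.symm = B := by simp
        have e2 : (B + R.map g.symm).map g = B.map g + R := by simp
        rw [← e2]
        refine hP.iso _ _ hg (hB _ ?_ ?_ (hP.iso _ _ hg' h3))
        · have := h1.map hg'
          rwa [Multiset.map_add, e1] at this
        · have := h2.map hg'
          rwa [e1] at this
      · rw [add_assoc] at h1 ⊢
        refine hB _ h1 (fun q hq r hr => ?_) (hC _ (anti_add.1 h1).2.1
          (fun q hq r hr => h2 q (mem_add.2 (.inr hq)) r hr) h3)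
        rcases mem_add.1 hr with hr | hr
        exacts [hBC q hq r hr, h2 q (mem_add.2 (.inl hq)) r hr]
      · rw [cons_add] at h1 ⊢
        have h4 := (anti_cons.1 h1).2
        have h5 : ∀ r ∈ R, n ≤ M.dist r e := fun r hr => by
          rw [M.dist_comm]; exact h2 e (mem_cons_self _ _) r hr
        have h6 : M.Anti (e ::ₘ R) := anti_cons.2 ⟨(anti_add.1 (anti_cons.1 h1).1).2.1,
          fun q hq => h4 q (mem_add.2 (.inr hq))⟩
        refine hP.move e _ γ h1 hγ ?_
        have h7 := anti_star h1 hγ Finset.univ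
        rw [star_add] at h7 ⊢
        refine hB _ h7 (far_star hγ (fun q hq => (h4 q (mem_add.2 (.inl hq))).1)
          (fun r hr => ⟨(h4 r (mem_add.2 (.inr hr))).1, h5 r hr⟩)
          (fun q hq r hr => h2 q (mem_cons_of_mem hq) r hr) _)
          (hP.star (by omega) h6 h5 hγ h3 _)
    simpa using ih _ key F hF 0 (by simpa using hF) (fun _ _ _ h => by simp at h) hP.zero

omit [Fintype S] in
lemma sum_star (s : Finset S) (γ : S → D ≃ D) (F : Multiset D) (f : D → ℝ) :
    ((star s γ F).map f).sum = ∑ t ∈ s, (F.map fun q => f (γ t q)).sum := by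
  classical
  induction s using Finset.induction_on with
  | empty => simp [star]
  | insert t s ht ih => simp [star_insert ht, Finset.sum_insert ht, ih]

/-- a family of flows that can be glued at distance `n` and has a source at every vertex does
not exist -/
theorem no_flow [Nonempty S] (n : ℕ) (X : Set (D → ℝ)) (hX : X.Nonempty)
    (hiso : ∀ f ∈ X, ∀ g, M.Iso g → (fun q => f (g q)) ∈ X)
    (hglue : ∀ f₁ ∈ X, ∀ f₂ ∈ X, ∀ F₁ F₂, M.Far n F₁ F₂ →
      ∃ f ∈ X, (∀ q ∈ F₁, f q = f₁ q) ∧ ∀ q ∈ F₂, f q = f₂ q)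
    (hin : ∀ f ∈ X, ∀ e γ, M.mv e γ → 0 ≤ ∑ t, f (γ t e))
    (F₀ : Multiset D) (h₀ : M.Anti F₀) : ∃ f ∈ X, 0 ≤ (F₀.map f).sum := by
  classical
  have key : M.Rules n fun F => ∀ E, M.Beh E F → M.Far n F E → ∀ f ∈ X, ∃ f' ∈ X,
      (E.map f).sum ≤ (E.map f').sum + (F.map f').sum := by
    refine ⟨fun E _ _ f hf => ⟨f, hf, by simp⟩, fun F g hg hF E h1 h2 f hf => ?_,
      fun F R h0 hFR hF hR E h1 h2 f hf => ?_, fun e F γ h0 hγ hF E h1 h2 f hf => ?_⟩
    · have hg' := M.iso_symm g hg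
      have e1 : (F.map g).map g.symm = F := by simp
      obtain ⟨f', hf', h⟩ := hF (E.map g.symm) (by simpa [e1] using h1.map hg')
        (by simpa [e1] using h2.map hg') _ (hiso f hf g hg)
      exact ⟨_, hiso f' hf' _ hg', by simpa using h⟩
    · obtain ⟨f₁, hf₁, h3⟩ := hR E (fun q hq r hr => h1 q hq r (mem_add.2 (.inr hr)))
        (fun q hq r hr => h2 q (mem_add.2 (.inr hq)) r hr) f hf
      obtain ⟨f₂, hf₂, h4⟩ := hF (E + R) (fun q hq r hr => (mem_add.1 hq).elim
          (fun hq => h1 q hq r (mem_add.2 (.inl hr))) fun hq => (anti_add.1 h0).2.2.2 q hq r hr)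
        (fun q hq r hr => (mem_add.1 hr).elim
          (fun hr => h2 q (mem_add.2 (.inl hq)) r hr) fun hr => hFR q hq r hr) f₁ hf₁
      refine ⟨f₂, hf₂, ?_⟩
      simp only [Multiset.map_add, sum_add] at h4 ⊢
      linarith
    · have h4 := (anti_cons.1 h0).2
      have h5 : ∀ r ∈ E, M.beh r e ∧ n ≤ M.dist r e := fun r hr =>
        ⟨h1 r hr e (mem_cons_self _ _), by
          rw [M.dist_comm]; exact h2 e (mem_cons_self _ _) r hr⟩
      have h6 : ∀ s : Finset S, ∃ f₁ ∈ X, ∀ t ∈ s, ∀ q ∈ E, f₁ (γ t q) = f q := by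
        intro s
        induction s using Finset.induction_on with
        | empty => exact ⟨f, hf, by simp⟩
        | insert t s ht ih =>
          obtain ⟨f₁, hf₁, h⟩ := ih
          obtain ⟨f₂, hf₂, h7, h8⟩ := hglue _ (hiso f hf _ (M.iso_symm _ (M.mv_iso e γ hγ t)))
            f₁ hf₁ (E.map (γ t)) (star s γ E) (fun q₀ hq₀ r₀ hr₀ => by
              obtain ⟨q, hq, rfl⟩ := mem_map.1 hq₀
              obtain ⟨t', ht', r, hr, rfl⟩ := mem_star.1 hr₀
              have := M.mv_dist e γ hγ t t' (fun h' => ht (h' ▸ ht')) q r (h5 q hq).1 (h5 r hr).1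
              have := (h5 q hq).2
              omega)
          refine ⟨f₂, hf₂, fun t' ht' q hq => ?_⟩
          rcases Finset.mem_insert.1 ht' with rfl | ht'
          · simpa using h7 _ (mem_map_of_mem _ hq)
          · rw [h8 _ (mem_star.2 ⟨t', ht', q, hq, rfl⟩), h t' ht' q hq]
      obtain ⟨f₁, hf₁, h7⟩ := h6 Finset.univ
      obtain ⟨f₂, hf₂, h8⟩ := hF (star Finset.univ γ E) (fun q₀ hq₀ r₀ hr₀ => by
          obtain ⟨t, -, q, hq, rfl⟩ := mem_star.1 hq₀
          obtain ⟨t', -, r, hr, rfl⟩ := mem_star.1 hr₀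
          by_cases hne : t = t'
          · subst hne
            exact M.iso_beh _ (M.mv_iso e γ hγ t) _ _ (h1 q hq r (mem_cons_of_mem hr))
          · exact M.mv_beh e γ hγ t t' hne q r (h5 q hq).1 (h4 r hr).1 (h4 r hr).2)
        (far_star hγ (fun q hq => (h4 q hq).1) h5
          (fun q hq r hr => h2 q (mem_cons_of_mem hq) r hr) _) f₁ hf₁
      simp only [sum_star] at h8
      have h9 := hin f₂ hf₂ e γ hγ
      have h10 : ∑ _t : S, (E.map f).sum ≤ ∑ t, ((E.map fun q => f₂ (γ t q)).sum +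
          ((e ::ₘ F).map fun q => f₂ (γ t q)).sum) := by
        have : ∑ t, (E.map fun q => f₁ (γ t q)).sum = ∑ _t : S, (E.map f).sum :=
          Finset.sum_congr rfl fun t ht => congrArg _ (map_congr rfl (h7 t ht))
        simp only [map_cons, sum_cons, Finset.sum_add_distrib]
        linarith
      obtain ⟨t, -, ht⟩ := Finset.exists_le_of_sum_le Finset.univ_nonempty h10
      exact ⟨_, hiso f₂ hf₂ _ (M.mv_iso e γ hγ t), ht⟩
  obtain ⟨f, hf⟩ := hX
  obtain ⟨f', hf', h⟩ := win n _ key F₀ h₀ 0 (by simp [Beh]) (by simp [Far]) f hf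
  exact ⟨f', hf', by simpa using h⟩

end Geo

end Pool.Agent.MP_3bdc7b_an.ca
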