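import Mathlib.Algebra.Group.Subgroup.Finite
import Mathlib.Data.Fintype.Perm
import Mathlib.Data.Fintype.Prod
import Mathlib.Data.Finset.NAry
import Pool.Agent.MP_3bdc7b_an.ca.Hydra
import Pool.Agent.MP_3bdc7b_an.Tree
import Pool.Agent.MP_3bdc7b_an.Main

/-!
Directed edges of the Cayley tree of a free group. A strongly irreducible shift-invariant set
carries no local flow with a source at every vertex.
-/

namespace Pool.Agent.MP_3bdc7b_an.ca

open FreeGroup

variable {ι : Type*}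

/-- signed permutations of the letters -/
def Sgn (ι : Type*) : Subgroup (Equiv.Perm (ι × Bool)) where
  carrier := {π | ∀ l, π (bar l) = bar (π l)}
  one_mem' := fun _ => rfl
  mul_mem' := fun {a b} ha hb l => by
    simp only [Equiv.Perm.mul_apply]; rw [hb l, ha]
  inv_mem' := fun {a} ha l => by
    apply a.injective
    rw [ha]; simp

/-- the automorphism of the free group given by a signed permutation -/
def sg (π : Sgn ι) : FreeGroup ι →* FreeGroup ι := FreeGroup.lift fun i => gen (π.1 (i, true))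

lemma sg_gen (π : Sgn ι) (l : ι × Bool) : sg π (gen l) = gen (π.1 l) := by
  have h : ∀ i, sg π (gen (i, true)) = gen (π.1 (i, true)) := fun i =>
    FreeGroup.lift_apply_of (f := fun i => gen (π.1 (i, true))) (x := i)
  rcases l with ⟨i, _ | _⟩
  · have e : ((i, false) : ι × Bool) = bar (i, true) := rfl
    rw [e, gen_bar, _root_.map_inv, h, π.2, gen_bar]
  · exact h i

lemma sg_mk (π : Sgn ι) (w : List (ι × Bool)) : sg π (mk w) = mk (w.map π.1) := by
  induction w with
  | nil => exact _root_.map_one _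
  | cons l w ih => rw [mk_cons, _root_.map_mul, sg_gen, ih, List.map_cons, mk_cons]

lemma sg_mul (π π' : Sgn ι) (g : FreeGroup ι) : sg (π * π') g = sg π (sg π' g) := by
  obtain ⟨w⟩ := g
  change sg (π * π') (mk w) = sg π (sg π' (mk w))
  simp [sg_mk]

lemma sg_one (g : FreeGroup ι) : sg 1 g = g := by
  obtain ⟨w⟩ := g
  change sg 1 (mk w) = mk w
  simp [sg_mk]

lemma exists_sgn [DecidableEq ι] (l m : ι × Bool) : ∃ π : Sgn ι, π.1 l = m := by
  let s : Sgn ι := ⟨(Equiv.swap l.1 m.1).prodCongr (Equiv.refl _), fun _ => rfl⟩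
  let b : Sgn ι := ⟨⟨bar, bar, bar_bar, bar_bar⟩, fun _ => rfl⟩
  rcases l with ⟨i, x⟩
  rcases m with ⟨j, y⟩
  by_cases h : x = y
  · exact ⟨s, by simp [s, h]⟩
  · refine ⟨b * s, ?_⟩
    cases x <;> cases y <;> simp_all [s, b, bar]

/-- the symmetry of the set of directed edges given by a translation and a signed permutation -/
def act (h : FreeGroup ι) (π : Sgn ι) :
    FreeGroup ι × (ι × Bool) ≃ FreeGroup ι × (ι × Bool) where
  toFun q := (h * sg π q.1, π.1 q.2)
  invFun q := (sg π⁻¹ h⁻¹ * sg π⁻¹ q.1, π⁻¹.1 q.2)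
  left_inv q := by simp [← sg_mul, sg_one]
  right_inv q := by simp [← sg_mul, sg_one]

variable [DecidableEq ι]

lemma toWord_sg (π : Sgn ι) (g : FreeGroup ι) : (sg π g).toWord = g.toWord.map π.1 := by
  conv_lhs => rw [← mk_toWord (x := g), sg_mk, toWord_mk]
  apply FreeGroup.IsReduced.reduce_eq
  have h : FreeGroup.IsReduced g.toWord := isReduced_toWord
  unfold FreeGroup.IsReduced at h ⊢
  rw [List.isChain_map]
  refine h.imp fun a b hab h1 => ?_
  by_contra h2
  have e : π.1 b = bar (π.1 a) := by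
    refine Prod.ext h1.symm ?_
    revert h2; simp only [bar]; cases (π.1 a).2 <;> cases (π.1 b).2 <;> simp
  rw [← π.2] at e
  have e' := π.1.injective e
  subst e'
  have := hab rfl
  revert this; simp [bar]

lemma norm_sg (π : Sgn ι) (g : FreeGroup ι) : (sg π g).norm = g.norm := by
  simp [FreeGroup.norm, toWord_sg]

lemma hd_sg (π : Sgn ι) (g : FreeGroup ι) : hd (sg π g) = (hd g).map π.1 := by
  simp [hd, toWord_sg]

lemma hd_inv_mul_eq {a b : FreeGroup ι} (h : hd a ≠ hd b) (ha : a ≠ 1) :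
    hd (a⁻¹ * b) = hd a⁻¹ := by
  have h1 := norm_inv_mul _ a b rfl h
  have h2 : (a⁻¹ * b).toWord = a⁻¹.toWord ++ b.toWord := by
    have e : (a⁻¹ * b).toWord = reduce (a⁻¹.toWord ++ b.toWord) := by
      rw [← toWord_mk, ← mul_mk, mk_toWord, mk_toWord]
    refine (e ▸ reduce.red.sublist : (a⁻¹ * b).toWord.Sublist _).eq_of_length ?_
    rw [List.length_append]
    have := norm_inv_eq (x := a)
    simp only [FreeGroup.norm] at h1 this
    omega
  have h3 : a⁻¹.toWord ≠ [] := fun h => ha (inv_eq_one.1 (toWord_eq_nil_iff.1 h))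
  simp only [hd, h2]
  rcases hw : a⁻¹.toWord with _ | ⟨c, w⟩
  · exact absurd hw h3
  · simp

/-- the geometry of the directed edges of the Cayley tree -/
def geo (ι : Type*) [DecidableEq ι] : Geo (FreeGroup ι × (ι × Bool)) (ι × Bool) :=
  let beh : FreeGroup ι × (ι × Bool) → FreeGroup ι × (ι × Bool) → Prop :=
    fun q e => q ≠ e ∧ hd (e.1⁻¹ * q.1) ≠ some e.2
  have hd1 : ∀ h π (q e : FreeGroup ι × (ι × Bool)),
      ((act h π q).1⁻¹ * (act h π e).1) = sg π (q.1⁻¹ * e.1) := fun h π q e => by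
    simp [act, mul_assoc]
  have hb : ∀ h π q e, beh q e → beh (act h π q) (act h π e) := fun h π q e hq => by
    refine ⟨fun h' => hq.1 ((act h π).injective h'), ?_⟩
    rw [hd1, hd_sg]
    intro h'
    obtain ⟨l, h1, h2⟩ := Option.map_eq_some_iff.1 h'
    exact hq.2 (h1.trans (congrArg some (π.1.injective h2)))
  have key : ∀ h π (q e : FreeGroup ι × (ι × Bool)) t, act h π e = (gen t, bar t) → beh q e →
      hd (act h π q).1 = some t ∧ (act h π q).1.norm = (q.1⁻¹ * e.1).norm + 1 :=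
    fun h π q e t he hq => by
      have h1 := (hb h π q e hq).2
      have h2 := hd1 h π e q
      rw [he] at h1 h2
      have e1 : (act h π q).1 = gen t * ((gen t)⁻¹ * (act h π q).1) := by group
      refine ⟨e1 ▸ hd_gen_mul h1, ?_⟩
      rw [e1, norm_gen_mul h1, h2, norm_sg, ← norm_inv_eq]
      simp
  { dist := fun q e => (q.1⁻¹ * e.1).norm
    beh := beh
    Iso := fun γ => ∃ h π, γ = act h π
    mv := fun e γ => ∀ t, (∃ h π, γ t = act h π) ∧ γ t e = (gen t, bar t)
    dist_comm := fun q e => by rw [← norm_inv_eq]; simp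
    beh_irrefl := fun e h => h.1 rfl
    iso_symm := by
      rintro _ ⟨h, π, rfl⟩
      exact ⟨sg π⁻¹ h⁻¹, π⁻¹, Equiv.ext fun _ => rfl⟩
    iso_dist := by
      rintro _ ⟨h, π, rfl⟩ q e
      rw [hd1, norm_sg]
    iso_beh := by
      rintro _ ⟨h, π, rfl⟩
      exact hb h π
    mv_iso := fun _ _ h t => (h t).1
    mv_ex := fun e => by
      choose π hπ using fun t => exists_sgn e.2 (bar t)
      exact ⟨fun t => act (gen t * (sg (π t) e.1)⁻¹) (π t), fun t =>
        ⟨⟨_, _, rfl⟩, by simp [act, hπ]⟩⟩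
    mv_dist := fun e γ hγ t t' hne q q' hq hq' => by
      obtain ⟨⟨h, π, e1⟩, e2⟩ := hγ t
      obtain ⟨⟨h', π', e3⟩, e4⟩ := hγ t'
      rw [e1] at e2 ⊢
      rw [e3] at e4 ⊢
      obtain ⟨k1, k2⟩ := key h π q e t e2 hq
      obtain ⟨k3, k4⟩ := key h' π' q' e t' e4 hq'
      have := norm_inv_mul _ (act h π q).1 (act h' π' q').1 rfl (by rw [k1, k3]; simpa using hne)
      omega
    mv_beh := fun e γ hγ t t' hne q q' hq hq' he => by
      obtain ⟨⟨h, π, e1⟩, e2⟩ := hγ t
      obtain ⟨⟨h', π', e3⟩, e4⟩ := hγ t'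
      rw [e1] at e2 ⊢
      rw [e3] at e4 ⊢
      obtain ⟨k1, -⟩ := key h π q e t e2 hq
      obtain ⟨k3, -⟩ := key h' π' q' e t' e4 hq'
      have k5 := hb h' π' e q' he
      rw [e4] at k5
      have hne' : hd (act h' π' q').1 ≠ hd (act h π q).1 := by
        rw [k1, k3]; simpa using hne.symm
      refine ⟨fun h => hne' (by rw [h]), ?_⟩
      rw [hd_inv_mul_eq hne' fun h => by simp [h, hd_one] at k3]
      generalize act h' π' q' = v at k3 k5
      intro k6
      have e5 : v.1⁻¹ * gen t' * gen (bar t') = v.1⁻¹ := by rw [gen_bar]; group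
      rcases hd_mul_gen k6 t' with k7 | ⟨k7, k8⟩
      · exact k5.2 k7
      · refine k5.1 (Prod.ext ?_ ?_)
        · rw [k8, gen_bar, ← k7, inv_inv]
        · rw [k8, bar_bar] }

/-- a strongly irreducible shift-invariant set over a free group of finite rank carries no local
flow with a source at every vertex -/
theorem exists_div_nonpos [Fintype ι] {C : Type*} (X : Set (FreeGroup ι → C)) (hX : X.Nonempty)
    (hs : ∀ g, ∀ x ∈ X, shift g x ∈ X) (hSI : StronglyIrreducible X)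
    (out : (FreeGroup ι → C) → ι × Bool → ℝ) (W : Finset (FreeGroup ι))
    (hW : ∀ x ∈ X, ∀ y ∈ X, (∀ w ∈ W, x w = y w) → out x = out y)
    (hanti : ∀ x ∈ X, ∀ l, out x l + out (shift (gen l)⁻¹ x) (bar l) = 0)
    (hdiv : ∀ x ∈ X, 0 ≤ ∑ l, out x l) : ∃ x ∈ X, ∑ l, out x l ≤ 0 := by
  classical
  rcases isEmpty_or_nonempty (ι × Bool) with h0 | h0
  · exact ⟨_, hX.some_mem, by simp⟩
  obtain ⟨Δ, hΔ⟩ := hSI
  let fl : (Sgn ι → FreeGroup ι → C) → FreeGroup ι × (ι × Bool) → ℝ :=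
    fun z q => -∑ π, out (shift (sg π q.1)⁻¹ (z π)) (π.1 q.2)
  let n := (W ×ˢ Δ ×ˢ W).sup (fun p => (p.1 * p.2.1 * p.2.2⁻¹).norm) + 1
  suffices H : ∃ f ∈ fl '' {z | ∀ π, z π ∈ X},
      0 ≤ ((Finset.univ.val.map fun t => ((1 : FreeGroup ι), t)).map f).sum by
    obtain ⟨_, ⟨z, hz, rfl⟩, h⟩ := H
    simp only [fl, Multiset.map_map, Function.comp_def, _root_.map_one, inv_one, shift_one] at h
    rw [← Finset.sum_eq_multiset_sum, Finset.sum_neg_distrib, Finset.sum_comm] at h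
    have h1 : ∑ π : Sgn ι, ∑ l, out (z π) l ≤ ∑ _π : Sgn ι, (0 : ℝ) := by
      have : ∀ π : Sgn ι, ∑ l, out (z π) (π.1 l) = ∑ l, out (z π) l := fun π =>
        Equiv.sum_comp π.1 _
      simp only [this] at h
      simp only [Finset.sum_const_zero]
      linarith
    obtain ⟨π, -, hπ⟩ := Finset.exists_le_of_sum_le Finset.univ_nonempty h1
    exact ⟨_, hz π, hπ⟩
  refine Geo.no_flow (M := geo ι) n (fl '' {z | ∀ π, z π ∈ X})
    ⟨_, fun _ => hX.some, fun _ => hX.some_mem, rfl⟩ ?_ ?_ ?_ _ ?_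
  · rintro _ ⟨z, hz, rfl⟩ _ ⟨h, π₀, rfl⟩
    refine ⟨fun π => shift (sg (π * π₀⁻¹) h)⁻¹ (z (π * π₀⁻¹)), fun π => hs _ _ (hz _), ?_⟩
    funext q
    simp only [fl]
    rw [← Equiv.sum_comp (Equiv.mulRight π₀)]
    simp [act, shift_shift, sg_mul]
  · rintro _ ⟨z₁, hz₁, rfl⟩ _ ⟨z₂, hz₂, rfl⟩ F₁ F₂ hF
    have : ∀ π : Sgn ι, ∃ x ∈ X, (∀ q ∈ F₁, ∀ w ∈ W, x (sg π q.1 * w) = z₁ π (sg π q.1 * w)) ∧
        ∀ q ∈ F₂, ∀ w ∈ W, x (sg π q.1 * w) = z₂ π (sg π q.1 * w) := fun π => by
      obtain ⟨x, hx, h1, h2⟩ := hΔ _ (hz₁ π) _ (hz₂ π)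
        (Finset.image₂ (fun q w => sg π q.1 * w) F₁.toFinset W)
        (Finset.image₂ (fun q w => sg π q.1 * w) F₂.toFinset W) (fun a ha d hd hb => by
          obtain ⟨q, hq, w, hw, rfl⟩ := Finset.mem_image₂.1 ha
          obtain ⟨q', hq', w', hw', e⟩ := Finset.mem_image₂.1 hb
          have h1 : n ≤ (q.1⁻¹ * q'.1).norm :=
            hF q (Multiset.mem_toFinset.1 hq) q' (Multiset.mem_toFinset.1 hq')
          have h2 : sg π (q.1⁻¹ * q'.1) = w * d * w'⁻¹ := by
            rw [_root_.map_mul, _root_.map_inv, eq_mul_inv_iff_mul_eq, mul_assoc, e]; group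
          have h3 := Finset.le_sup (f := fun p : FreeGroup ι × FreeGroup ι × FreeGroup ι =>
            (p.1 * p.2.1 * p.2.2⁻¹).norm) (b := (w, d, w'))
            (Finset.mem_product.2 ⟨hw, Finset.mem_product.2 ⟨hd, hw'⟩⟩)
          rw [← norm_sg π, h2] at h1
          simp only [n] at h1 h3
          omega)
      exact ⟨x, hx, fun q hq w hw => h1 _ (Finset.mem_image₂_of_mem (Multiset.mem_toFinset.2 hq) hw),
        fun q hq w hw => h2 _ (Finset.mem_image₂_of_mem (Multiset.mem_toFinset.2 hq) hw)⟩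
    choose z hz h1 h2 using this
    refine ⟨_, ⟨z, hz, rfl⟩, fun q hq => ?_, fun q hq => ?_⟩
    · refine congrArg Neg.neg (Finset.sum_congr rfl fun π _ => ?_)
      exact congrFun (hW _ (hs _ _ (hz π)) _ (hs _ _ (hz₁ π)) fun w hw => by
        simpa [shift] using h1 π q hq w hw) _
    · refine congrArg Neg.neg (Finset.sum_congr rfl fun π _ => ?_)
      exact congrFun (hW _ (hs _ _ (hz π)) _ (hs _ _ (hz₂ π)) fun w hw => by
        simpa [shift] using h2 π q hq w hw) _
  · rintro _ ⟨z, hz, rfl⟩ e γ hγ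
    have e1 : ∀ t, fl z (γ t e) = ∑ π : Sgn ι, out (z π) (π.1 t) := fun t => by
      rw [(hγ t).2]
      simp only [fl, sg_gen]
      rw [← Finset.sum_neg_distrib]
      refine Finset.sum_congr rfl fun π _ => ?_
      have := hanti _ (hz π) (π.1 t)
      rw [π.2]; linarith
    simp only [e1]
    rw [Finset.sum_comm]
    refine Finset.sum_nonneg fun π _ => ?_
    rw [Equiv.sum_comp π.1 (out (z π))]
    exact hdiv _ (hz π)
  · refine ⟨Finset.univ.nodup.map fun a b h => (Prod.ext_iff.1 h).2, fun q hq e he hne => ?_⟩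
    obtain ⟨t, -, rfl⟩ := Multiset.mem_map.1 hq
    obtain ⟨t', -, rfl⟩ := Multiset.mem_map.1 he
    exact ⟨hne, by simp [hd_one]⟩

end Pool.Agent.MP_3bdc7b_an.ca
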