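import Pool.Agent.MP_3bdc7b_an.ca.Defs

/-!
Approximately continuous insertion of patterns; amenable groups.
-/

namespace Pool.Agent.MP_3bdc7b_an.ca

/-- every pattern `x₀` on `P` of `X` can be inserted continuously, changing only a finite set `R`,
in subshifts `Y` containing `X` and arbitrarily close to `X` -/
def ApproxInsertion {G A : Type*} [Group G] [TopologicalSpace A] (X : Set (G → A)) : Prop :=
  ∀ x₀ ∈ X, ∀ P : Finset G, ∃ R : Finset G, ∀ K : Finset G, ∃ Y : Set (G → A),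
    X ⊆ Y ∧ IsClosed Y ∧ (∀ g : G, ∀ y ∈ Y, shift g y ∈ Y) ∧
    (∀ y ∈ Y, ∃ x ∈ X, ∀ g ∈ K, x g = y g) ∧
    ∃ ι : (G → A) → G → A, ContinuousOn ι Y ∧
      ∀ y ∈ Y, ι y ∈ Y ∧ (∀ g ∈ P, ι y g = x₀ g) ∧ ∀ g, g ∉ R → ι y g = y g

/-- amenable groups (Folner condition) -/
def IsAmenable (H : Type*) [Group H] : Prop :=
  ∀ (S : Finset H) (ε : ℝ), 0 < ε → ∃ F : Finset H, F.Nonempty ∧
    ∀ s ∈ S, ({g | g ∈ F ∧ s * g ∉ F}.ncard : ℝ) ≤ ε * F.card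

end Pool.Agent.MP_3bdc7b_an.ca
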