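import Pool.Agent.MP_3bdc7b_an.ca.Surj2

/-!
Classes of subshifts with approximately continuous insertion.
-/

namespace Pool.Agent.MP_3bdc7b_an.ca

open Finset

variable {G : Type*} [Group G] {A : Type*} [TopologicalSpace A] [DiscreteTopology A]
  {X : Set (G → A)}

/-- limits of uniformly strongly irreducible subshifts with the topological Markov property -/
theorem approxInsertion_of_limit (Δ : Finset G) (h : ∀ K : Finset G, ∃ Y : Set (G → A), X ⊆ Y ∧
    IsClosed Y ∧ (∀ g : G, ∀ y ∈ Y, shift g y ∈ Y) ∧ (∀ y ∈ Y, ∃ x ∈ X, ∀ g ∈ K, x g = y g) ∧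
    TMP Y ∧ ∀ x₁ ∈ Y, ∀ x₂ ∈ Y, ∀ Ω₁ Ω₂ : Finset G, (∀ a ∈ Ω₁, ∀ d ∈ Δ, a * d ∉ Ω₂) →
      ∃ x ∈ Y, (∀ g ∈ Ω₁, x g = x₁ g) ∧ ∀ g ∈ Ω₂, x g = x₂ g) : ApproxInsertion X := by
  classical
  intro x₀ hx₀ P
  refine ⟨P ∪ image₂ (· * ·) P Δ, fun K => ?_⟩
  obtain ⟨Y, h1, h2, h3, h4, h5, h6⟩ := h K
  set R := P ∪ image₂ (· * ·) P Δ with hR
  obtain ⟨S, -, hS⟩ := h5 R
  have H : ∀ q : S → A, ∃ z : G → A, ∀ y ∈ Y, (fun s : S => y s) = q → z ∈ Y ∧
      (∀ g ∈ P, z g = x₀ g) ∧ ∀ g ∈ S, g ∉ R → z g = y g := fun q => by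
    by_cases hq : ∃ y ∈ Y, (fun s : S => y s) = q
    · obtain ⟨y, hy, rfl⟩ := hq
      obtain ⟨z, hz, k1, k2⟩ := h6 _ (h1 hx₀) _ hy P (S \ R) fun a ha d hd h =>
        (mem_sdiff.1 h).2 (mem_union_right _ (mem_image₂_of_mem ha hd))
      exact ⟨z, fun y' _ e => ⟨hz, k1, fun g hg hr =>
        (k2 g (mem_sdiff.2 ⟨hg, hr⟩)).trans (congrFun e ⟨g, hg⟩).symm⟩⟩
    · exact ⟨x₀, fun y hy e => absurd ⟨y, hy, e⟩ hq⟩
  choose z hz using H
  refine ⟨Y, h1, h2, h3, h4, fun y g => if g ∈ R then z (fun s => y s) g else y g,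
    Continuous.continuousOn (continuous_pi fun g => ?_), fun y hy => ⟨?_, fun g hg => ?_,
      fun g hg => if_neg hg⟩⟩
  · split_ifs
    · exact (continuous_of_discreteTopology (f := fun q : S → A => z q g)).comp
        (continuous_pi fun s => continuous_apply _)
    · exact continuous_apply _
  · obtain ⟨k1, -, k3⟩ := hz _ y hy rfl
    obtain ⟨w, hw, k4, k5⟩ := hS _ k1 _ hy k3
    convert hw using 1
    funext g
    by_cases hg : g ∈ R
    · exact (if_pos hg).trans (k4 g hg).symm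
    · exact (if_neg hg).trans (k5 g hg).symm
  · exact (if_pos (mem_union_left _ hg)).trans ((hz _ y hy rfl).2.1 g hg)

/-- strongly irreducible subshifts with the topological Markov property -/
theorem approxInsertion_of_tmp (hc : IsClosed X) (hs : ∀ g, ∀ x ∈ X, shift g x ∈ X)
    (hSI : StronglyIrreducible X) (hT : TMP X) : ApproxInsertion X :=
  approxInsertion_of_limit hSI.choose fun _ =>
    ⟨X, subset_rfl, hc, hs, fun y hy => ⟨y, hy, fun _ _ => rfl⟩, hT, hSI.choose_spec⟩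

/-- strongly irreducible subshifts with a safe symbol -/
theorem approxInsertion_of_safe [DecidableEq G] (hc : IsClosed X)
    (hs : ∀ g, ∀ x ∈ X, shift g x ∈ X) (hSI : StronglyIrreducible X) (a : A)
    (ha : ∀ x ∈ X, ∀ g, Function.update x g a ∈ X) : ApproxInsertion X := by
  intro x₀ hx₀ P
  obtain ⟨Δ, hΔ⟩ := hSI
  set R := P ∪ image₂ (· * ·) P Δ with hR
  have H : ∀ x ∈ X, ∀ U : Finset G, (fun g => if g ∈ U then a else x g) ∈ X := fun x hx U => by
    induction U using Finset.induction_on with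
    | empty => simpa using hx
    | insert u U _ ih =>
      convert ha _ ih u using 1
      funext g
      by_cases hg : g = u <;> simp [hg]
  refine ⟨R, fun K => ⟨X, subset_rfl, hc, hs, fun y hy => ⟨y, hy, fun _ _ => rfl⟩,
    fun y g => if g ∈ P then x₀ g else if g ∈ R then a else y g,
    Continuous.continuousOn (continuous_pi fun g => ?_), fun y hy => ⟨?_, fun g hg => if_pos hg,
      fun g hg => (if_neg fun h => hg (mem_union_left _ h)).trans (if_neg hg)⟩⟩⟩
  · split_ifs <;> fun_prop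
  · refine mem_of_forall_finset hc fun Ω => ?_
    obtain ⟨z, hz, k1, k2⟩ := hΔ _ hx₀ _ hy P (Ω \ R) fun a ha d hd h =>
      (mem_sdiff.1 h).2 (mem_union_right _ (mem_image₂_of_mem ha hd))
    refine ⟨_, H z hz (R \ P), fun g hg => ?_⟩
    by_cases h1 : g ∈ P
    · simp [h1, k1 g h1]
    · by_cases h2 : g ∈ R
      · simp [h1, h2]
      · simp [h1, h2, k2 g (mem_sdiff.2 ⟨hg, h2⟩)]

/-- contractible subshifts (gluing is given by a block map) -/
theorem approxInsertion_of_contractible [Finite A] (hc : IsClosed X)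
    (hs : ∀ g, ∀ x ∈ X, shift g x ∈ X) (h : (G → Bool) × (G → A) × (G → A) → G → A)
    (h1 : ContinuousOn h (Set.univ ×ˢ X ×ˢ X)) (h2 : ∀ t, ∀ x ∈ X, ∀ y ∈ X, h (t, x, y) ∈ X)
    (h3 : ∀ g t, ∀ x ∈ X, ∀ y ∈ X, h (shift g t, shift g x, shift g y) = shift g (h (t, x, y)))
    (h4 : ∀ x ∈ X, ∀ y ∈ X, h (fun _ => false, x, y) = x ∧ h (fun _ => true, x, y) = y) :
    ApproxInsertion X := by
  classical
  let e : (G → Bool × A × A) → (G → Bool) × (G → A) × (G → A) := fun w =>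
    (fun g => (w g).1, fun g => (w g).2.1, fun g => (w g).2.2)
  have he : Continuous e := by fun_prop
  obtain ⟨M, hM⟩ := exists_memory (Y := e ⁻¹' (Set.univ ×ˢ X ×ˢ X))
    ((isClosed_univ.prod (hc.prod hc)).preimage he).isCompact (f := fun w => h (e w) 1)
    ((continuous_apply 1).comp_continuousOn (h1.comp he.continuousOn fun _ hw => hw))
  have key : ∀ t t' g, ∀ x ∈ X, ∀ y ∈ X, (∀ m ∈ M, t (g * m) = t' (g * m)) →
      h (t, x, y) g = h (t', x, y) g := fun t t' g x hx y hy k => by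
    have := hM (fun m => (t (g * m), x (g * m), y (g * m))) ?_
      (fun m => (t' (g * m), x (g * m), y (g * m))) ?_ fun m hm => by rw [k m hm]
    · have e1 : ∀ t, h (t, x, y) g = h (shift g⁻¹ t, shift g⁻¹ x, shift g⁻¹ y) 1 := fun t => by
        rw [h3 _ _ _ hx _ hy, shift_inv_apply, mul_one]
      rw [e1, e1]
      convert this using 3 <;> ext <;> simp [e, shift]
    all_goals
      refine ⟨trivial, ?_, ?_⟩
      · convert hs g⁻¹ _ hx using 1
        ext; simp [e, shift]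
      · convert hs g⁻¹ _ hy using 1
        ext; simp [e, shift]
  intro x₀ hx₀ P
  refine ⟨image₂ (fun g m => g * m⁻¹) (image₂ (· * ·) P M) M, fun K => ⟨X, subset_rfl, hc, hs,
    fun y hy => ⟨y, hy, fun _ _ => rfl⟩,
    fun y => h (fun g => decide (g ∈ image₂ (· * ·) P M), y, x₀),
    h1.comp (Continuous.continuousOn (by fun_prop)) fun y hy => ⟨trivial, hy, hx₀⟩,
    fun y hy => ⟨h2 _ _ hy _ hx₀, fun g hg => ?_, fun g hg => ?_⟩⟩⟩
  · exact (key _ (fun _ => true) g _ hy _ hx₀ fun m hm =>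
      decide_eq_true (mem_image₂_of_mem hg hm)).trans (congrFun (h4 _ hy _ hx₀).2 g)
  · exact (key _ (fun _ => false) g _ hy _ hx₀ fun m hm => decide_eq_false fun k =>
      hg (mem_image₂.2 ⟨_, k, m, hm, by simp⟩)).trans (congrFun (h4 _ hy _ hx₀).1 g)

end Pool.Agent.MP_3bdc7b_an.ca
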