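import Pool.Agent.MP_3bdc7b_an.ca.Surj
import Pool.Agent.MP_3bdc7b_an.ca.Defs2

/-!
Insertion of a pattern into labelings of finite models, in rounds.
-/

namespace Pool.Agent.MP_3bdc7b_an.ca

open Finset

universe u w

variable {G : Type u} [Group G] {A : Type*}

/-- a local insertion rule -/
structure Rule (Y : Set (G → A)) (P R S : Finset G) (p : G → A) (ι : (G → A) → G → A) :
    Prop where
  inv : ∀ g, ∀ y ∈ Y, shift g y ∈ Y
  mem : ∀ y ∈ Y, ι y ∈ Y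
  pat : ∀ y ∈ Y, ∀ g ∈ P, ι y g = p g
  off : ∀ y ∈ Y, ∀ g, g ∉ R → ι y g = y g
  loc : ∀ y ∈ Y, ∀ y' ∈ Y, (∀ s ∈ S, y s = y' s) → ∀ r ∈ R, ι y r = ι y' r
  one : (1 : G) ∈ R
  PR : P ⊆ R
  RS : R ⊆ S

variable {Y : Set (G → A)} {P R S : Finset G} {p : G → A} {ι : (G → A) → G → A}

lemma Rule.paste (h : Rule Y P R S p ι) {x : G → A} (hx : x ∈ Y) (T : Finset G)
    (h2 : ∀ t ∈ T, ∀ t' ∈ T, ∀ s ∈ S, ∀ r ∈ R, t * s = t' * r → t = t') :
    ∃ x' ∈ Y, (∀ t ∈ T, ∀ r ∈ R, x' (t * r) = ι (shift t⁻¹ x) r) ∧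
      ∀ g, (∀ t ∈ T, ∀ r ∈ R, g ≠ t * r) → x' g = x g := by
  classical
  induction T using Finset.induction_on with
  | empty => exact ⟨x, hx, by simp, fun _ _ => rfl⟩
  | insert t T ht ih =>
    obtain ⟨x', hx', k1, k2⟩ := ih
      fun t h t' h' => h2 t (mem_insert_of_mem h) t' (mem_insert_of_mem h')
    have hne : ∀ s ∈ S, ∀ t' ∈ T, ∀ r ∈ R, t * s ≠ t' * r := fun s hs t' ht' r hr e =>
      ht (h2 t (mem_insert_self _ _) t' (mem_insert_of_mem ht') s hs r hr e ▸ ht')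
    have k5 : ∀ g, (∀ r ∈ R, g ≠ t * r) → shift t (ι (shift t⁻¹ x')) g = x' g := fun g hg => by
      rw [shift, h.off _ (h.inv _ _ hx') _ fun h => hg _ h (by group), shift_inv_apply,
        mul_inv_cancel_left]
    refine ⟨shift t (ι (shift t⁻¹ x')), h.inv _ _ (h.mem _ (h.inv _ _ hx')),
      fun t' ht' r hr => ?_, fun g hg => ?_⟩
    · rcases mem_insert.1 ht' with rfl | ht'
      · rw [shift, inv_mul_cancel_left]
        exact h.loc _ (h.inv _ _ hx') _ (h.inv _ _ hx) (fun s hs => by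
          rw [shift_inv_apply, shift_inv_apply, k2 _ (hne s hs)]) r hr
      · rw [k5 _ fun r' hr' e => hne r' (h.RS hr') t' ht' r hr e.symm, k1 t' ht' r hr]
    · rw [k5 g (hg t (mem_insert_self _ _)), k2 g fun t h => hg t (mem_insert_of_mem h)]

namespace Chart

variable {K : Finset G} {V : Type w} (c : Chart K V)

lemma exists_max_sep {S : Finset G} (h1 : (1 : G) ∈ S) {J : Finset V} (hJ : J ⊆ c.V₀) :
    ∃ I ⊆ J, c.Sep S I ∧ ∀ v ∈ J, ∃ v' ∈ I, ∃ s ∈ S, ∃ s' ∈ S, c.a v s = c.a v' s' := by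
  classical
  obtain ⟨I, hI, hmax⟩ := exists_max_image (J.powerset.filter (c.Sep S)) card ⟨∅, by simp [Sep]⟩
  have hI' := (mem_filter.1 hI).2
  have hIJ := mem_powerset.1 (mem_filter.1 hI).1
  refine ⟨I, hIJ, hI', fun v hv => ?_⟩
  by_contra hc
  have k : ∀ v' ∈ I, ∀ s ∈ S, ∀ s' ∈ S, c.a v s ≠ c.a v' s' := fun v' hv' s hs s' hs' e =>
    hc ⟨v', hv', s, hs, s', hs', e⟩
  have hvI : v ∉ I := fun h => k v h 1 h1 1 h1 rfl
  have := hmax (insert v I) (mem_filter.2 ⟨mem_powerset.2 (insert_subset hv hIJ),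
    insert_subset (hJ hv) hI'.1, fun a ha b hb s hs s' hs' e => by
      rcases mem_insert.1 ha with rfl | ha' <;> rcases mem_insert.1 hb with rfl | hb'
      · rfl
      · exact absurd e (k b hb' s hs s' hs')
      · exact absurd e.symm (k a ha' s' hs' s hs)
      · exact hI'.2 a ha' b hb' s hs s' hs' e⟩)
  rw [card_insert_of_notMem hvI] at this
  omega

variable [Fintype V] [Fintype A]

open Classical in
lemma ins [Nonempty A] (h : Rule Y P R S p ι) {K₀ K₁ : Finset G} (k1 : K₁ ⊆ K) (k3 : S ⊆ K₁)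
    (k4 : K₀ ⊆ K₁) (k5 : ∀ g ∈ K₀, ∀ r ∈ R, ∀ s ∈ S, g * r⁻¹ * s ∈ K₁) {J : Finset V}
    (hJ : c.Sep S J) {y : V → A} (hy : y ∈ c.mic Y K₁) :
    ∃ y' ∈ c.mic Y K₀, (∀ v ∈ J, c.Occ P p y' v) ∧ ∀ w ∉ image₂ c.a J R, y' w = y w := by
  have k2 := h.RS h.one
  have hRS := h.RS
  choose! x₀ x1 x2 using c.mem_mic.1 hy
  let y' : V → A := fun w => if h : ∃ q : V × G, q.1 ∈ J ∧ q.2 ∈ R ∧ c.a q.1 q.2 = w then
    ι (x₀ h.choose.1) h.choose.2 else y w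
  have e1 : ∀ v ∈ J, ∀ r ∈ R, y' (c.a v r) = ι (x₀ v) r := fun v hv r hr => by
    have h : ∃ q : V × G, q.1 ∈ J ∧ q.2 ∈ R ∧ c.a q.1 q.2 = c.a v r := ⟨(v, r), hv, hr, rfl⟩
    obtain ⟨h1, h2, h3⟩ := h.choose_spec
    have h4 := hJ.2 _ h1 _ hv _ (hRS h2) _ (hRS hr) h3
    rw [h4] at h3
    simp only [y', dif_pos h]
    rw [h4, c.inj v (hJ.1 hv) (k1 (k3 (hRS h2))) (k1 (k3 (hRS hr))) h3]
  have e2 : ∀ w ∉ image₂ c.a J R, y' w = y w := fun w hw =>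
    dif_neg fun ⟨q, h1, h2, h3⟩ => hw (mem_image₂.2 ⟨_, h1, _, h2, h3⟩)
  refine ⟨y', c.mem_mic.2 fun u hu => ?_, fun v hv g hg => by
    rw [e1 v hv g (h.PR hg), h.pat _ (x1 v (hJ.1 hv)) g hg], e2⟩
  let T := (image₂ (fun g r => g * r⁻¹) K₀ R).filter fun t => c.a u t ∈ J
  have hT1 : ∀ t ∈ T, ∀ s ∈ S, t * s ∈ K₁ := fun t ht s hs => by
    obtain ⟨g, hg, r, hr, rfl⟩ := mem_image₂.1 (mem_filter.1 ht).1
    exact k5 g hg r hr s hs
  have hT2 : ∀ t ∈ T, t ∈ K := fun t ht => by simpa using k1 (hT1 t ht 1 k2)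
  have hT3 : ∀ t ∈ T, ∀ s ∈ S, c.a (c.a u t) s = c.a u (t * s) := fun t ht s hs =>
    c.mul u hu t (hT2 t ht) s (k1 (hT1 t ht s hs))
  obtain ⟨x', hx', h1, h2⟩ := h.paste (x1 u hu) T
    fun t ht t' ht' s hs r hr e => c.inj u hu (hT2 t ht) (hT2 t' ht')
      (hJ.2 _ (mem_filter.1 ht).2 _ (mem_filter.1 ht').2 s hs r (hRS hr) (by
        rw [hT3 t ht s hs, hT3 t' ht' r (hRS hr), e]))
  refine ⟨x', hx', fun g hg => ?_⟩
  by_cases hw : c.a u g ∈ image₂ c.a J R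
  · obtain ⟨v, hv, r, hr, e⟩ := mem_image₂.1 hw
    have e3 := c.back hu (hJ.1 hv) (k1 (k3 k2)) (k1 (k4 hg)) (k1 (k3 (hRS hr)))
      (by simpa using k1 (k5 g hg r hr 1 k2)) e.symm
    have ht : g * r⁻¹ ∈ T := mem_filter.2 ⟨mem_image₂_of_mem hg hr, e3 ▸ hv⟩
    have := h1 _ ht r hr
    rw [inv_mul_cancel_right] at this
    rw [← e, e1 v hv r hr, this]
    refine h.loc _ (x1 v (hJ.1 hv)) _ (h.inv _ _ (x1 u hu)) (fun s hs => ?_) r hr
    rw [shift_inv_apply, ← x2 u hu _ (hT1 _ ht s hs), ← hT3 _ ht s hs, e3,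
      x2 v (hJ.1 hv) s (k3 hs)]
  · rw [e2 _ hw, x2 u hu g (k4 hg), h2 g fun t ht r hr e => hw (mem_image₂.2
      ⟨_, (mem_filter.1 ht).2, r, hr, by rw [hT3 t ht r (hRS hr), e]⟩)]

end Chart

open Classical in
lemma Rule.rounds [Fintype A] [Nonempty A] (h : Rule Y P R S p ι) (K₀ : Finset G) (n : ℕ) :
    ∃ K₁, K₀ ⊆ K₁ ∧ ∀ K, K₁ ⊆ K → ∀ (V : Type w) [Fintype V] (c : Chart K V) (J : Finset V),
      c.Sep R J → (∀ v ∈ J, #(J.filter fun v' => ∃ s ∈ S, ∃ s' ∈ S, c.a v s = c.a v' s') ≤ n) →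
      ∀ y ∈ c.mic Y K₁, ∃ y' ∈ c.mic Y K₀, (∀ v ∈ J, c.Occ P p y' v) ∧
        ∀ w ∉ image₂ c.a J R, y' w = y w := by
  have k2 := h.RS h.one
  induction n with
  | zero =>
    refine ⟨K₀, Subset.rfl, fun K _ V _ c J _ hJ y hy => ⟨y, hy, fun v hv => ?_, fun _ _ => rfl⟩⟩
    exact absurd (hJ v hv) (not_le.2 (card_pos.2 ⟨v, mem_filter.2 ⟨hv, 1, k2, 1, k2, rfl⟩⟩))
  | succ n ih =>
    obtain ⟨K₁, h0, ih⟩ := ih
    refine ⟨K₁ ∪ S ∪ image₂ (· * ·) (image₂ (fun g r => g * r⁻¹) K₁ R) S,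
      fun a ha => by simp [h0 ha], fun K hK V _ c J hJ hn y hy => ?_⟩
    obtain ⟨I, hIJ, hI, hm⟩ := c.exists_max_sep k2 hJ.1
    obtain ⟨y₁, hy₁, k3, k4⟩ := c.ins h hK (fun a ha => by simp [ha]) (K₀ := K₁)
      (fun a ha => by simp [ha]) (fun g hg r hr s hs =>
        mem_union_right _ (mem_image₂_of_mem (mem_image₂_of_mem hg hr) hs)) hI hy
    obtain ⟨y₂, hy₂, k5, k6⟩ := ih K (fun a ha => hK (by simp [ha])) V c (J \ I)
      ⟨sdiff_subset.trans hJ.1, fun v hv v' hv' =>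
        hJ.2 v (sdiff_subset hv) v' (sdiff_subset hv')⟩ (fun v hv => by
        obtain ⟨v', hv', k⟩ := hm v (sdiff_subset hv)
        refine Nat.le_of_lt_succ (lt_of_lt_of_le (card_lt_card ?_) (hn v (sdiff_subset hv)))
        exact ⟨filter_subset_filter _ sdiff_subset, fun hc =>
          (mem_sdiff.1 (mem_filter.1 (hc (mem_filter.2 ⟨hIJ hv', k⟩))).1).2 hv'⟩) y₁ hy₁
    refine ⟨y₂, hy₂, fun v hv => ?_, fun w hw => ?_⟩
    · by_cases hvI : v ∈ I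
      · intro g hg
        rw [k6 _ fun hc => ?_, k3 v hvI g hg]
        obtain ⟨v', hv', r, hr, e⟩ := mem_image₂.1 hc
        exact (mem_sdiff.1 hv').2 (hJ.2 _ (sdiff_subset hv') _ hv _ hr _ (h.PR hg) e ▸ hvI)
      · exact k5 v (mem_sdiff.2 ⟨hv, hvI⟩)
    · rw [k6 w fun hc => hw (image₂_subset_right sdiff_subset hc),
        k4 w fun hc => hw (image₂_subset_right hIJ hc)]

open Classical in
/-- insertion along any separated set -/
lemma ApproxInsertion.exists_ins [Fintype A] [TopologicalSpace A] [DiscreteTopology A]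
    {X : Set (G → A)} (hX : ApproxInsertion X) {p : G → A} (hp : p ∈ X) (P : Finset G) :
    ∃ R : Finset G, 1 ∈ R ∧ P ⊆ R ∧ ∀ K₀, ∃ K₁, K₀ ⊆ K₁ ∧ ∀ K, K₁ ⊆ K → ∀ (V : Type w) [Fintype V]
      (c : Chart K V) (J : Finset V), c.Sep R J → ∀ y ∈ c.mic X K₁, ∃ y' ∈ c.mic X K₀,
        (∀ v ∈ J, c.Occ P p y' v) ∧ ∀ w ∉ image₂ c.a J R, y' w = y w := by
  have : Nonempty A := ⟨p 1⟩
  obtain ⟨R₀, hR⟩ := hX p hp P
  refine ⟨insert 1 (P ∪ R₀), by simp, fun a ha => by simp [ha], fun K₀ => ?_⟩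
  obtain ⟨Y, h1, h2, h3, h4, ι, h5, h6⟩ := hR K₀
  choose M hM using fun r : G => exists_memory h2.isCompact (f := fun y => ι y r)
    ((continuous_apply r).comp_continuousOn h5)
  set R := insert 1 (P ∪ R₀) with hRd
  have h : Rule Y P R (R ∪ R.biUnion M) p ι := ⟨h3, fun y hy => (h6 y hy).1,
    fun y hy => (h6 y hy).2.1, fun y hy g hg => (h6 y hy).2.2 g fun h => hg (by simp [hRd, h]),
    fun y hy y' hy' h r hr => hM r y hy y' hy' fun g hg =>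
      h g (mem_union_right _ (mem_biUnion.2 ⟨r, hr, hg⟩)), by simp [hRd],
    fun a ha => by simp [hRd, ha], subset_union_left⟩
  generalize R ∪ R.biUnion M = S at h
  obtain ⟨K₁, k0, k1⟩ := Rule.rounds.{u, w} h K₀ #(image₂ (fun s s' => s * s'⁻¹) S S)
  refine ⟨K₁ ∪ S ∪ image₂ (fun s s' => s * s'⁻¹) S S, fun a ha => by simp [k0 ha],
    fun K hK V _ c J hJ y hy => ?_⟩
  have hS : S ⊆ K := fun a ha => hK (by simp [ha])
  obtain ⟨y', k2, k3⟩ := k1 K (fun a ha => hK (by simp [ha])) V c J hJ (fun v hv => by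
    refine le_trans (card_le_card fun v' hv' => ?_) (card_image_le (f := c.a v))
    obtain ⟨hv', s, hs, s', hs', e⟩ := mem_filter.1 hv'
    exact mem_image.2 ⟨_, mem_image₂_of_mem hs hs', c.back (hJ.1 hv) (hJ.1 hv') (hS (h.RS h.one))
      (hS hs) (hS hs') (hK (mem_union_right _ (mem_image₂_of_mem hs hs'))) e⟩) y
    (c.mem_mic.2 fun v hv => by
      obtain ⟨x, hx, h⟩ := c.mem_mic.1 hy v hv
      exact ⟨x, h1 hx, fun g hg => h g (by simp [hg])⟩)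
  refine ⟨y', c.mem_mic.2 fun v hv => ?_, k3⟩
  obtain ⟨x, hx, h⟩ := c.mem_mic.1 k2 v hv
  obtain ⟨x', hx', h'⟩ := h4 x hx
  exact ⟨x', hx', fun g hg => (h g hg).trans (h' g hg).symm⟩

end Pool.Agent.MP_3bdc7b_an.ca
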