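import Mathlib.Analysis.LocallyConvex.Separation
import Mathlib.Analysis.Convex.StdSimplex
import Mathlib.Data.Set.Finite.List
import Mathlib.Logic.Equiv.Fintype
import Pool.Agent.MP_3bdc7b_an.ca.Dart
import Pool.Agent.MP_3bdc7b_an.Alg

/-!
Finite models: every strongly irreducible shift-invariant set over a free group of finite rank has
a labeling of a finite action of large girth all of whose windows are admissible.
-/

namespace Pool.Agent.MP_3bdc7b_an.ca

lemma gordan {T K J : Type*} [Fintype T] [Fintype K] [Fintype J] [DecidableEq K]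
    (f g : J → T → K) :
    (∃ w : T → ℝ, (∀ t, 0 ≤ w t) ∧ (∃ t, w t ≠ 0) ∧ ∀ j k,
      ∑ t, (if f j t = k then w t else 0) = ∑ t, (if g j t = k then w t else 0)) ∨
    ∃ c : J → K → ℝ, ∀ t, 0 < ∑ j, (c j (f j t) - c j (g j t)) := by
  classical
  let D : T → J × K → ℝ := fun t => ∑ j, (Pi.single (j, f j t) 1 - Pi.single (j, g j t) 1)
  let L : (T → ℝ) →ₗ[ℝ] J × K → ℝ := Fintype.linearCombination ℝ D
  by_cases h : (0 : J × K → ℝ) ∈ L '' stdSimplex ℝ T
  · obtain ⟨w, hw, h0⟩ := h
    refine Or.inl ⟨w, hw.1, ?_, fun j k => ?_⟩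
    · by_contra hc
      have := hw.2
      simp [not_exists.1 hc |> fun h => fun t => not_not.1 (h t)] at this
    · have h1 := congrFun h0 (j, k)
      simp only [L, Fintype.linearCombination_apply, D, Finset.sum_apply, Pi.smul_apply,
        Pi.sub_apply, Pi.single_apply, Prod.mk.injEq, smul_eq_mul, Pi.zero_apply] at h1
      rw [← sub_eq_zero, ← Finset.sum_sub_distrib]
      refine Eq.trans (Finset.sum_congr rfl fun t _ => ?_) h1
      rw [Finset.sum_eq_single j (fun b _ hb => by simp [hb.symm]) (by simp)]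
      simp only [true_and, @eq_comm _ k]
      split_ifs <;> simp
  · obtain ⟨φ, u, h1, h2⟩ := geometric_hahn_banach_point_closed
      ((convex_stdSimplex ℝ T).linear_image L)
      ((isCompact_stdSimplex ℝ T).image L.continuous_of_finiteDimensional).isClosed h
    refine Or.inr ⟨fun j k => φ (Pi.single (j, k) 1), fun t => ?_⟩
    have h3 := h2 _ ⟨_, single_mem_stdSimplex ℝ t, rfl⟩
    have h4 : L (Pi.single t 1) = D t := by simp [L]
    rw [h4] at h3
    simp only [D, map_sum, map_sub, map_zero] at h1 h3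
    linarith

variable {ι : Type*} [DecidableEq ι]

open FreeGroup

lemma ball_finite [Finite ι] (r : ℕ) : {n : FreeGroup ι | n.norm ≤ r}.Finite :=
  ((List.finite_length_le (ι × Bool) r).image FreeGroup.mk).subset fun n hn =>
    ⟨n.toWord, hn, mk_toWord⟩

lemma word_ind {r : ℕ} {P : FreeGroup ι → Prop} (h1 : P 1)
    (h2 : ∀ i n, n.norm ≤ r → (of i * n).norm ≤ r → (P n ↔ P (of i * n))) (n : FreeGroup ι)
    (hn : n.norm ≤ r) : P n := by
  have H : ∀ w : List (ι × Bool), w.length ≤ r → P (FreeGroup.mk w) := fun w => by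
    induction w with
    | nil => exact fun _ => h1
    | cons l w ih =>
      intro hw
      have k1 : (FreeGroup.mk w).norm ≤ r := norm_mk_le.trans (by simp at hw; omega)
      have k2 : (FreeGroup.mk (l :: w)).norm ≤ r := norm_mk_le.trans hw
      have k3 := ih (by simp at hw; omega)
      rw [mk_cons] at k2 ⊢
      rcases l with ⟨i, _ | _⟩
      · have e : of i * (gen (i, false) * FreeGroup.mk w) = FreeGroup.mk w := by
          rw [show gen (i, false) = (of i)⁻¹ from gen_bar (i, true)]; group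
        exact (h2 i _ k2 (e.symm ▸ k1)).2 (e.symm ▸ k3)
      · exact (h2 i _ k1 k2).1 k3
  simpa [mk_toWord] using H n.toWord hn

lemma exists_girth [Finite ι] (r : ℕ) : ∃ ρ : FreeGroup ι →* Equiv.Perm {n : FreeGroup ι // n.norm ≤ r},
    Set.InjOn ρ {n | n.norm ≤ r} := by
  have := (ball_finite (ι := ι) r).to_subtype
  have : Finite {n : FreeGroup ι // n.norm ≤ r} := this
  have H : ∀ i : ι, ∃ σ : Equiv.Perm {n : FreeGroup ι // n.norm ≤ r}, ∀ n, ∀ h,
      σ n = ⟨of i * n, h⟩ := fun i => by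
    obtain ⟨σ, hσ⟩ := Equiv.Perm.exists_extending_pair
      (fun n : {n : {n : FreeGroup ι // n.norm ≤ r} // (of i * n.1).norm ≤ r} => n.1)
      (fun n => ⟨of i * n.1.1, n.2⟩) Subtype.val_injective
      fun a b h => Subtype.ext (Subtype.ext (mul_left_cancel (congrArg Subtype.val h)))
    exact ⟨σ, fun n h => hσ ⟨n, h⟩⟩
  choose σ hσ using H
  have h : ∀ n : FreeGroup ι, n.norm ≤ r → (lift σ n ⟨1, by simp⟩).1 = n := by
    refine word_ind (by simp) fun i n h1 h2 => ⟨fun h => ?_, fun h => ?_⟩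
    · rw [_root_.map_mul, lift_apply_of, Equiv.Perm.mul_apply,
        show lift σ n ⟨1, _⟩ = ⟨n, h1⟩ from Subtype.ext h, hσ i _ h2]
    · rw [_root_.map_mul, lift_apply_of, Equiv.Perm.mul_apply] at h
      exact congrArg Subtype.val ((σ i).injective ((Subtype.ext h).trans (hσ i ⟨n, h1⟩ h2).symm))
  exact ⟨lift σ, fun a ha b hb e => by rw [← h a ha, e, h b hb]⟩

theorem exists_model {ι B : Type*} [Finite ι] [Finite B] (Z : Set (FreeGroup ι → B))
    (hZ : Z.Nonempty) (hs : ∀ g, ∀ z ∈ Z, shift g z ∈ Z) (hSI : StronglyIrreducible Z)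
    (W : Finset (FreeGroup ι)) :
    ∃ (N : ℕ) (_ : 0 < N) (act : Fin N → FreeGroup ι → Fin N) (lab : Fin N → B),
      (∀ ω, act ω 1 = ω) ∧ (∀ ω n m, act (act ω n) m = act ω (n * m)) ∧
      ∀ ω, Set.InjOn (act ω) W ∧ ∃ z ∈ Z, ∀ n ∈ W, lab (act ω n) = z n := by
  classical
  have := Fintype.ofFinite ι
  let r := W.sup FreeGroup.norm
  let Bl := {n : FreeGroup ι // n.norm ≤ r}
  have : Finite Bl := (ball_finite (ι := ι) r).to_subtype
  let cut : (FreeGroup ι → B) → FreeGroup ι → Option B := fun z n =>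
    if n.norm ≤ r then some (z n) else none
  have : Finite (cut '' Z) := by
    refine Finite.of_injective (fun p : cut '' Z => fun n : Bl => p.1 n) ?_
    rintro ⟨_, z, hz, rfl⟩ ⟨_, z', hz', rfl⟩ h
    refine Subtype.ext (funext fun n => ?_)
    by_cases hn : n.norm ≤ r
    · exact congrFun h ⟨n, hn⟩
    · simp [cut, hn]
  have := Fintype.ofFinite (cut '' Z)
  have := Fintype.ofFinite (Bl → Option B)
  let f : ι → (FreeGroup ι → Option B) → Bl → Option B := fun i p n => p (of i * n)
  let g : ι → (FreeGroup ι → Option B) → Bl → Option B := fun i p n =>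
    if (of i * n.1).norm ≤ r then p n else none
  have hfg : ∀ i z, g i (cut (shift (of i)⁻¹ z)) = f i (cut z) := fun i z => funext fun n => by
    simp [f, g, cut, shift, n.2]
  rcases gordan (fun i (p : cut '' Z) => f i p) (fun i p => g i p) with ⟨w, h1, h2, h3⟩ | ⟨c, hc⟩
  · obtain ⟨q, hq, h4⟩ := exists_nat_solution w h1 _ _ h3
    obtain ⟨σ, hσ⟩ := exists_perm_model q _ _ h4
    obtain ⟨ρ, hρ⟩ := exists_girth (ι := ι) r
    obtain ⟨t₀, ht₀⟩ := h2
    have : Nonempty (Σ t, Fin (q t)) := ⟨⟨t₀, 0, Nat.pos_of_ne_zero ((hq t₀).2 ht₀)⟩⟩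
    have := Fintype.ofFinite ((Σ t, Fin (q t)) × Equiv.Perm Bl)
    let e := Fintype.equivFin ((Σ t, Fin (q t)) × Equiv.Perm Bl)
    let κ : FreeGroup ι →* Equiv.Perm (Σ t, Fin (q t)) := lift fun i => (σ i)⁻¹
    have hκ : ∀ n : FreeGroup ι, n.norm ≤ r → ∀ ω, ((κ n)⁻¹ ω).1.1 1 = ω.1.1 n := by
      have k : ∀ i n, n.norm ≤ r → (of i * n).norm ≤ r → ∀ ω,
          (σ i ω).1.1 n = ω.1.1 (of i * n) := fun i n k1 k2 ω => by
        simpa [f, g, k2] using congrFun (hσ i ω) ⟨n, k1⟩
      refine word_ind (by simp) fun i n k1 k2 => ?_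
      have e : ∀ ω, (κ (of i * n))⁻¹ ω = (κ n)⁻¹ (σ i ω) := fun ω => by simp [κ]
      simp only [e, ← k i n k1 k2]
      exact (σ i).surjective.forall
    refine ⟨_, Fintype.card_pos, fun ω n => e ((κ n)⁻¹ (e.symm ω).1, (ρ n)⁻¹ * (e.symm ω).2),
      fun ω => ((e.symm ω).1.1.1 1).getD (hZ.some 1), fun ω => by simp, fun ω n m => by
        simp [mul_assoc], fun ω => ⟨fun a ha b hb h => ?_, ?_⟩⟩
    · refine hρ (Finset.le_sup (f := FreeGroup.norm) ha) (Finset.le_sup (f := FreeGroup.norm) hb) ?_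
      simpa using congrArg Prod.snd (e.injective h)
    · obtain ⟨z, hz, hz'⟩ := (e.symm ω).1.1.2
      refine ⟨z, hz, fun n hn => ?_⟩
      have hn' : n.norm ≤ r := Finset.le_sup (f := FreeGroup.norm) hn
      simp only [Equiv.symm_apply_apply]
      rw [hκ n hn', ← hz']
      simp [cut, hn']
  · exfalso
    let out : (FreeGroup ι → B) → ι × Bool → ℝ := fun z l =>
      if l.2 then c l.1 (f l.1 (cut z)) else -c l.1 (g l.1 (cut z))
    have hd : ∀ z ∈ Z, 0 < ∑ l, out z l := fun z hz => by
      have := hc ⟨_, z, hz, rfl⟩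
      simpa [out, Fintype.sum_prod_type, sub_eq_add_neg] using this
    obtain ⟨z, hz, h⟩ := exists_div_nonpos Z hZ hs hSI out (ball_finite (ι := ι) r).toFinset
      (fun x _ y _ h => by
        have : cut x = cut y := funext fun n => by
          by_cases hn : n.norm ≤ r
          · simp [cut, hn, h n (by simpa using hn)]
          · simp [cut, hn]
        simp only [out, this])
      (fun x _ l => by
        rcases l with ⟨i, _ | _⟩
        · have e : gen (i, false) = (of i)⁻¹ := gen_bar (i, true)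
          have := hfg i (shift (of i) x)
          rw [shift_shift, inv_mul_cancel, shift_one] at this
          simp [out, bar, e, this]
        · have e : gen (i, true) = of i := rfl
          simp [out, bar, e, hfg])
      fun z hz => (hd z hz).le
    exact absurd (hd z hz) (not_lt.2 h)

end Pool.Agent.MP_3bdc7b_an.ca
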