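import Pool.Agent.MP_3bdc7b_an.ca.Surj
import Pool.Agent.MP_3bdc7b_an.ca.Model

/-!
Labeled finite models over groups that are free up to an amenable coset space.
-/

namespace Pool.Agent.MP_3bdc7b_an.ca

open Finset

universe u

variable {G : Type u} [Group G] {A : Type*}

lemma exists_slab (hG : CoamenablyFree G) (K : Finset G) (ε : ℝ) (hε : 0 < ε) :
    ∃ (ι T : Type u) (_ : Finite ι) (_ : Fintype T) (_ : Nonempty T) (φ : FreeGroup ι →* G)
      (E : T → G) (T₀ : Finset T), (∀ n t n' t', φ n * E t = φ n' * E t' → n = n' ∧ t = t') ∧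
      (Fintype.card T - #T₀ : ℝ) ≤ ε * Fintype.card T ∧
      ∀ t ∈ T₀, ∀ g ∈ K, ∃ n t', E t * g = φ n * E t' := by
  classical
  obtain ⟨L, hL, F, hF, h⟩ := hG (K.image (·⁻¹)) (ε / (#K + 1)) (by positivity)
  have hl : ∀ (c : G ⧸ L) (g : G), c.out⁻¹ * g * (g⁻¹ • c).out ∈ L := fun c g => by
    have : ((g⁻¹ * c.out : G) : G ⧸ L) = ((g⁻¹ • c).out : G) := by
      rw [QuotientGroup.out_eq', ← smul_eq_mul, MulAction.Quotient.coe_smul_out]
    simpa using QuotientGroup.eq.1 this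
  let L₀ : Subgroup L := Subgroup.closure ↑(image₂ (fun c g => (⟨_, hl c g⟩ : L)) F K)
  obtain ⟨ι, T, _, _, φ, e, h1, h2⟩ := exists_coordinates hL L₀ ⟨_, rfl⟩
  have := Fintype.ofFinite T
  obtain ⟨-, t₀, -⟩ := (h2 1).1 L₀.one_mem
  let F₀ : Finset F := univ.filter fun c => ∀ g ∈ K, g⁻¹ • c.1 ∈ F
  refine ⟨ι, T × F, inferInstance, inferInstance, ⟨t₀, _, hF.choose_spec⟩, L.subtype.comp φ,
    fun q => e q.1 * q.2.1.out⁻¹, univ ×ˢ F₀, ?_, ?_, ?_⟩
  · rintro n ⟨t, c⟩ n' ⟨t', c'⟩ k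
    simp only [MonoidHom.comp_apply, Subgroup.subtype_apply, ← mul_assoc] at k
    have hc : c = c' := by
      refine Subtype.ext ?_
      rw [← QuotientGroup.out_eq' c.1, ← QuotientGroup.out_eq' c'.1, QuotientGroup.eq]
      have : c.1.out⁻¹ * c'.1.out = ((φ n * e t)⁻¹ * (φ n' * e t') : L) := by
        rw [mul_inv_eq_iff_eq_mul] at k
        push_cast
        rw [k]; group
      exact this ▸ Subtype.property _
    subst hc
    obtain ⟨k1, k2⟩ := h1 n t n' t' (Subtype.ext (mul_right_cancel k))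
    exact ⟨k1, by rw [k2]⟩
  · have k1 : #F₀ᶜ ≤ ∑ g ∈ K, {c | c ∈ F ∧ g⁻¹ • c ∉ F}.ncard := by
      refine le_trans (card_le_card (t := K.biUnion fun g => univ.filter fun c : F =>
        g⁻¹ • c.1 ∉ F) fun c hc => by simpa [F₀] using hc) (card_biUnion_le.trans ?_)
      refine sum_le_sum fun g _ => ?_
      rw [← Set.ncard_coe_finset]
      exact Set.ncard_le_ncard_of_injOn Subtype.val (fun c hc => ⟨c.2, by simpa using hc⟩)
        Subtype.val_injective.injOn (F.finite_toSet.subset fun _ h => h.1)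
    have k2 : (#F₀ᶜ : ℝ) ≤ #K * (ε / (#K + 1) * #F) := by
      refine ((Nat.cast_le (α := ℝ)).2 k1).trans ?_
      rw [Nat.cast_sum, ← nsmul_eq_mul]
      exact sum_le_card_nsmul _ _ _ fun g hg => h _ (mem_image_of_mem _ hg)
    have k3 : (#K : ℝ) * (ε / (#K + 1) * #F) ≤ ε * #F := by
      rw [← mul_assoc]
      refine mul_le_mul_of_nonneg_right ?_ (by positivity)
      rw [← mul_div_assoc, div_le_iff₀ (by positivity)]
      nlinarith
    have k4 : (#F₀ᶜ : ℝ) + #F₀ = #F := by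
      rw [← Fintype.card_coe F, ← card_compl_add_card F₀]; push_cast; rfl
    simp only [Fintype.card_prod, card_product, card_univ, Fintype.card_coe]
    push_cast
    nlinarith [mul_le_mul_of_nonneg_left (k2.trans k3) (Nat.cast_nonneg (α := ℝ) (Fintype.card T))]
  · rintro ⟨t, c⟩ ht g hg
    have hc := (mem_filter.1 (mem_product.1 ht).2).2 g hg
    obtain ⟨n, t', k⟩ := (h2 (e t * ⟨_, hl c g⟩)).1 (L₀.mul_mem ((h2 _).2 ⟨1, t, by simp⟩)
      (Subgroup.subset_closure (mem_coe.2 (mem_image₂_of_mem c.2 hg))))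
    refine ⟨n, (t', ⟨_, hc⟩), ?_⟩
    have := congrArg Subtype.val k
    simp only [Subgroup.coe_mul] at this
    simp only [MonoidHom.comp_apply, Subgroup.subtype_apply]
    rw [← mul_assoc, ← this]; group

lemma hasModels_of_coamenablyFree (hG : CoamenablyFree G) [Finite A] {X : Set (G → A)}
    (hs : ∀ g, ∀ x ∈ X, shift g x ∈ X) (hSI : StronglyIrreducible X) (hX : X.Nonempty) :
    HasModels.{u, u} X := by
  classical
  intro K ε hε
  obtain ⟨ι, T, _, _, _, φ, E, T₀, h1, h2, h3⟩ := exists_slab hG K ε hε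
  have fin : ∀ D : Finset G, ∃ W : Finset (FreeGroup ι), ∀ n t t', ∀ d ∈ D,
      E t * d = φ n * E t' → n ∈ W := fun D => by
    refine ⟨(Set.Finite.of_finite_image (s := {q : FreeGroup ι × T | ∃ t, ∃ d ∈ D,
      E t * d = φ q.1 * E q.2}) (f := fun q => φ q.1 * E q.2)
      ((image₂ (fun t d => E t * d) univ D).finite_toSet.subset ?_)
      fun a _ b _ e => Prod.ext (h1 _ _ _ _ e).1 (h1 _ _ _ _ e).2).toFinset.image Prod.fst,
      fun n t t' d hd e => mem_image.2 ⟨(n, t'), by simpa using ⟨t, d, hd, e⟩, rfl⟩⟩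
    rintro _ ⟨q, ⟨t, d, hd, e⟩, rfl⟩
    exact mem_coe.2 (mem_image₂.2 ⟨t, mem_univ _, d, hd, e⟩)
  let hat : (G → A) → FreeGroup ι → T → A := fun x n t => x (φ n * E t)
  obtain ⟨W, hW⟩ := fin K
  obtain ⟨N, hN, act, lab, a1, a2, a3⟩ := exists_model (hat '' X) (hX.image _)
    (by
      rintro g _ ⟨x, hx, rfl⟩
      exact ⟨_, hs (φ g) x hx, by funext n t; simp [hat, shift, mul_assoc]⟩)
    (by
      obtain ⟨Δ, hΔ⟩ := hSI
      obtain ⟨D, hD⟩ := fin Δ
      refine ⟨D, ?_⟩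
      rintro _ ⟨x₁, hx₁, rfl⟩ _ ⟨x₂, hx₂, rfl⟩ Ω₁ Ω₂ hΩ
      obtain ⟨x, hx, k1, k2⟩ := hΔ _ hx₁ _ hx₂ (image₂ (fun n t => φ n * E t) Ω₁ univ)
        (image₂ (fun n t => φ n * E t) Ω₂ univ) fun a ha d hd hb => by
          obtain ⟨n, hn, t, -, rfl⟩ := mem_image₂.1 ha
          obtain ⟨n', hn', t', -, e⟩ := mem_image₂.1 hb
          refine hΩ n hn (n⁻¹ * n') (hD _ t t' d hd ?_) (by simpa using hn')
          rw [map_mul, map_inv, mul_assoc, e]; group
      exact ⟨_, ⟨x, hx, rfl⟩,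
        fun n hn => funext fun t => k1 _ (mem_image₂_of_mem hn (mem_univ t)),
        fun n hn => funext fun t => k2 _ (mem_image₂_of_mem hn (mem_univ t))⟩) W
  let a : Fin N × T → G → Fin N × T := fun v g =>
    if h : ∃ q : FreeGroup ι × T, E v.2 * g = φ q.1 * E q.2 then (act v.1 h.choose.1, h.choose.2)
    else v
  have ha : ∀ v g n t', E v.2 * g = φ n * E t' → a v g = (act v.1 n, t') := fun v g n t' e => by
    have h : ∃ q : FreeGroup ι × T, E v.2 * g = φ q.1 * E q.2 := ⟨(n, t'), e⟩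
    obtain ⟨k1, k2⟩ := h1 _ _ _ _ (h.choose_spec.symm.trans e)
    simp only [a, dif_pos h, k1, k2]
  have : Nonempty (Fin N) := ⟨⟨0, hN⟩⟩
  refine ⟨Fin N × T, inferInstance, inferInstance, ⟨a, univ ×ˢ T₀, fun v _ => ?_, fun v hv => ?_,
    fun v hv g hg h hgh => ?_⟩, ?_, fun v => lab v.1 v.2, fun v hv => ?_⟩
  · rw [ha v 1 1 v.2 (by simp), a1]
  · intro g hg g' hg' e
    obtain ⟨n, t, k⟩ := h3 _ (mem_product.1 hv).2 g hg
    obtain ⟨n', t', k'⟩ := h3 _ (mem_product.1 hv).2 g' hg'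
    rw [ha v g n t k, ha v g' n' t' k', Prod.mk.injEq] at e
    rw [(a3 v.1).1 (hW _ _ _ _ hg k) (hW _ _ _ _ hg' k') e.1, e.2, ← k'] at k
    exact mul_left_cancel k
  · obtain ⟨n, t, k⟩ := h3 _ (mem_product.1 hv).2 g hg
    obtain ⟨n', t', k'⟩ := h3 _ (mem_product.1 hv).2 _ hgh
    rw [ha v g n t k, ha v _ n' t' k', ha _ h (n⁻¹ * n') t' (by
      rw [map_mul, map_inv, mul_assoc, ← k', ← mul_assoc (E v.2), k]; group), a2,
      mul_inv_cancel_left]
  · simp only [Fintype.card_prod, card_product, card_univ]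
    push_cast
    nlinarith [mul_le_mul_of_nonneg_left h2 (Nat.cast_nonneg (α := ℝ) (Fintype.card (Fin N)))]
  · obtain ⟨_, ⟨x, hx, rfl⟩, k⟩ := (a3 v.1).2
    refine ⟨_, hs (E v.2)⁻¹ x hx, fun g hg => ?_⟩
    obtain ⟨n, t, k'⟩ := h3 _ (mem_product.1 hv).2 g hg
    simp only [ha v g n t k', k n (hW _ _ _ _ hg k'), shift_inv_apply, k', hat]

theorem surj_of_coamenablyFree (hG : CoamenablyFree G) [Finite A] [TopologicalSpace A]
    [DiscreteTopology A] {X : Set (G → A)} (hc : IsClosed X) (hs : ∀ g, ∀ x ∈ X, shift g x ∈ X)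
    (hSI : StronglyIrreducible X) (hT : TMP X) : Surjunctive X :=
  surj_of_models hc hs hSI hT (hasModels_of_coamenablyFree hG hs hSI)

end Pool.Agent.MP_3bdc7b_an.ca
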