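import Pool.Agent.MP_3bdc7b_an.ca.Surj

/-!
Subshifts with a finite orbit over sofic groups; examples of the topological Markov property.
-/

namespace Pool.Agent.MP_3bdc7b_an.ca

open Finset

universe u v

variable {G : Type u} [Group G] {A : Type v}

lemma exists_chart (hG : IsSofic G) (K : Finset G) (ε : ℝ) (hε : 0 < ε) :
    ∃ (n : ℕ) (_ : 0 < n) (c : Chart K (Fin n)), (n - #c.V₀ : ℝ) ≤ ε * n := by
  classical
  obtain ⟨F, h1, h2, h3, h4⟩ : ∃ F : Finset G, 1 ∈ F ∧ (∀ g ∈ K, g⁻¹ ∈ F) ∧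
      (∀ g ∈ K, ∀ h ∈ K, g * h⁻¹ ∈ F) ∧ ∀ g ∈ K, ∀ h ∈ K, g⁻¹ * h ∈ F :=
    ⟨insert 1 (K.image (·⁻¹) ∪ image₂ (fun g h => g * h⁻¹) K K ∪ image₂ (fun g h => g⁻¹ * h) K K),
      by simp, fun g hg => by simp [hg], fun g hg h hh => mem_insert_of_mem (mem_union_left _
        (mem_union_right _ (mem_image₂_of_mem hg hh))),
      fun g hg h hh => mem_insert_of_mem (mem_union_right _ (mem_image₂_of_mem hg hh))⟩
  set η := ε / (#(F ×ˢ F) + #F + 1) with hη
  obtain ⟨n, σ, hn, k1, k2⟩ := hG F η (by positivity)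
  let V₀ : Finset (Fin n) := univ.filter fun v =>
    (∀ q ∈ F ×ˢ F, σ (q.1 * q.2) v = σ q.1 (σ q.2 v)) ∧ ∀ g ∈ F, g ≠ 1 → σ g v ≠ v
  have m1 : ∀ v ∈ V₀, ∀ g ∈ F, ∀ h ∈ F, σ (g * h) v = σ g (σ h v) := fun v hv g hg h hh =>
    (mem_filter.1 hv).2.1 (g, h) (mem_product.2 ⟨hg, hh⟩)
  refine ⟨n, hn, ⟨fun v g => σ g⁻¹ v, V₀, fun v hv => ?_, fun v hv g hg g' hg' e => ?_,
    fun v hv g hg h hh => ?_⟩, ?_⟩
  · have := m1 v hv 1 h1 1 h1
    rw [mul_one] at this
    rw [inv_one, ← (σ 1).injective this]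
  · by_contra hne
    have := m1 v hv _ (h2 g hg) _ (h3 g hg g' hg')
    rw [inv_mul_cancel_left] at this
    exact (mem_filter.1 hv).2.2 _ (h3 g hg g' hg') (mt mul_inv_eq_one.1 hne)
      ((σ g⁻¹).injective (this.symm.trans e.symm))
  · rw [mul_inv_rev, m1 v hv _ (by simpa using h4 _ hh g hg) _ (h2 g hg)]
  · have c1 : ∀ (p : Fin n → Prop) [DecidablePred p], (1 - η) * n ≤ ({v | p v}.ncard : ℝ) →
        (#(univ.filter fun v => ¬p v) : ℝ) ≤ η * n := fun p _ hp => by
      have := card_filter_add_card_filter_not (s := univ) p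
      rw [card_univ, Fintype.card_fin] at this
      rw [← coe_filter_univ, Set.ncard_coe_finset] at hp
      have h := congrArg (Nat.cast (R := ℝ)) this
      push_cast at h
      linarith
    have c2 : #V₀ᶜ ≤ ∑ q ∈ F ×ˢ F, #(univ.filter fun v => ¬σ (q.1 * q.2) v = σ q.1 (σ q.2 v)) +
        ∑ g ∈ F, #(univ.filter fun v => ¬(g ≠ 1 → σ g v ≠ v)) := by
      refine le_trans (card_le_card fun v hv => ?_) ((card_union_le _ _).trans
        (add_le_add card_biUnion_le card_biUnion_le))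
      simp only [V₀, mem_compl, mem_filter, mem_univ, true_and, not_and_or, not_forall] at hv
      simp only [mem_union, mem_biUnion, mem_filter, mem_univ, true_and, not_forall]
      simpa only [exists_prop] using hv
    have c3 := (Nat.cast_le (α := ℝ)).2 c2
    push_cast at c3
    have c4 := sum_le_card_nsmul (F ×ˢ F) _ _ fun q hq =>
      c1 _ (k1 _ (mem_product.1 hq).1 _ (mem_product.1 hq).2)
    have c5 := sum_le_card_nsmul F (fun g => (#(univ.filter fun v => ¬(g ≠ 1 → σ g v ≠ v)) : ℝ))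
      (η * n) fun g hg => by
        by_cases h : g = 1
        · simp only [h, ne_eq, not_true, false_imp_iff, filter_false, card_empty, Nat.cast_zero]
          positivity
        · simpa [h] using c1 _ (k2 g hg h)
    have c6 : (#V₀ᶜ : ℝ) + #V₀ = n := by exact_mod_cast (card_compl_add_card V₀).trans (by simp)
    have c7 : η * (#(F ×ˢ F) + #F + 1) = ε := div_mul_cancel₀ _ (by positivity)
    have c8 : 0 ≤ η * n := by positivity
    simp only [nsmul_eq_mul] at c4 c5
    change (n - #V₀ : ℝ) ≤ _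
    rw [← c7]
    nlinarith

lemma hasModels_of_sofic (hG : IsSofic G) {X : Set (G → A)} (hs : ∀ g, ∀ x ∈ X, shift g x ∈ X)
    {x₀ : G → A} (hx : x₀ ∈ X) (hf : (Set.range fun g => shift g x₀).Finite) :
    HasModels.{u, max u v} X := by
  classical
  intro K ε hε
  obtain ⟨n, hn, c, hc⟩ := exists_chart hG K ε hε
  have := hf.fintype
  have : Nonempty (Fin n) := ⟨⟨0, hn⟩⟩
  let s : G → (Set.range fun g => shift g x₀) → Set.range fun g => shift g x₀ := fun g o =>
    ⟨shift g⁻¹ o.1, by obtain ⟨_, h, rfl⟩ := o; exact ⟨_, (shift_shift _ _ _).symm⟩⟩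
  refine ⟨Fin n × Set.range fun g => shift g x₀, inferInstance, inferInstance,
    ⟨fun v g => (c.a v.1 g, s g v.2), c.V₀ ×ˢ univ, fun v hv => ?_, fun v hv g hg g' hg' e => ?_,
      fun v hv g hg h hh => ?_⟩, ?_, fun v => v.2.1 1, ?_⟩
  · simp [s, c.one _ (mem_product.1 hv).1, shift_one]
  · exact c.inj _ (mem_product.1 hv).1 hg hg' (congrArg Prod.fst e)
  · simp [s, c.mul _ (mem_product.1 hv).1 g hg h hh, shift_shift]
  · simp only [Fintype.card_prod, card_product, card_univ, Fintype.card_fin]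
    push_cast
    nlinarith [mul_le_mul_of_nonneg_right hc
      (Nat.cast_nonneg (α := ℝ) (Fintype.card (Set.range fun g => shift g x₀)))]
  · rintro ⟨v, _, h, rfl⟩ -
    exact ⟨_, hs h _ hx, fun g _ => by simp [s, shift]⟩

theorem surj_of_sofic (hG : IsSofic G) [Finite A] [TopologicalSpace A] [DiscreteTopology A]
    {X : Set (G → A)} (hc : IsClosed X) (hs : ∀ g, ∀ x ∈ X, shift g x ∈ X)
    (hSI : StronglyIrreducible X) (hT : TMP X)
    (hp : ∃ x ∈ X, (Set.range fun g => shift g x).Finite) : Surjunctive X :=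
  surj_of_models hc hs hSI hT fun _ => hasModels_of_sofic hG hs hp.choose_spec.1 hp.choose_spec.2

/-- subshifts of finite type have the topological Markov property -/
theorem tmp_of_isSFT {X : Set (G → A)} (h : IsSFT X) : TMP X := by
  classical
  obtain ⟨W, P, rfl⟩ := h
  intro R
  refine ⟨R ∪ image₂ (· * ·) (image₂ (fun r w => r * w⁻¹) R W) W, subset_union_left,
    fun x hx y hy h => ⟨fun g => if g ∈ R then x g else y g, fun g => ?_, fun g hg => if_pos hg,
      fun g hg => if_neg hg⟩⟩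
  by_cases hg : ∃ w ∈ W, g⁻¹ * w ∈ R
  · obtain ⟨w, hw, hr⟩ := hg
    convert hx g using 2 with w'
    simp only [shift]
    split_ifs with h'
    · rfl
    · refine (h _ (mem_union_right _ (mem_image₂.2
        ⟨_, mem_image₂_of_mem hr hw, w', w'.2, by group⟩)) h').symm
  · convert hy g using 2 with w'
    exact if_neg fun h' => hg ⟨w', w'.2, h'⟩

omit [Group G] in
/-- closed subgroups of `A ^ G` have the topological Markov property -/
theorem tmp_of_subgroup [Finite A] [Group A] [TopologicalSpace A] (X : Subgroup (G → A))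
    (hc : IsClosed (X : Set (G → A))) : TMP (X : Set (G → A)) := by
  classical
  intro R
  have := Fintype.ofFinite A
  let ext : (R → A) → G → A := fun q g => if h : g ∈ R then q ⟨g, h⟩ else 1
  have H : ∀ q, ∃ Ω : Finset G, (∃ y ∈ X, ∀ g ∈ Ω, y g = ext q g) → ext q ∈ X := fun q => by
    by_cases h : ext q ∈ X
    · exact ⟨∅, fun _ => h⟩
    · obtain ⟨Ω, hΩ⟩ := not_forall.1 (mt (mem_of_forall_finset hc) h)
      exact ⟨Ω, fun h => absurd h hΩ⟩
  choose Ω hΩ using H
  refine ⟨R ∪ univ.biUnion Ω, subset_union_left, fun x hx y hy h =>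
    ⟨ext (fun g => x g * (y g)⁻¹) * y, X.mul_mem (hΩ (fun g => x g * (y g)⁻¹)
      ⟨x * y⁻¹, X.mul_mem hx (X.inv_mem hy), fun g hg => ?_⟩) hy,
      fun g hg => by simp [ext, hg], fun g hg => by simp [ext, hg]⟩⟩
  by_cases hr : g ∈ R
  · simp [ext, hr]
  · simp [ext, hr, h g (mem_union_right _ (mem_biUnion.2 ⟨_, mem_univ _, hg⟩)) hr]

end Pool.Agent.MP_3bdc7b_an.ca
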