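import Pool.Agent.MP_3bdc7b_an.ca.Count

/-!
A strongly irreducible subshift with the topological Markov property and with labeled finite
models is surjunctive.
-/

namespace Pool.Agent.MP_3bdc7b_an.ca

open Finset

universe u w

variable {G : Type u} [Group G] {A : Type*}

lemma exists_local [Finite A] [TopologicalSpace A] [DiscreteTopology A] {X : Set (G → A)}
    (hc : IsClosed X) (hs : ∀ g, ∀ x ∈ X, shift g x ∈ X) (τ : X → X) (hτc : Continuous τ)
    (hτ : ∀ (g : G) (x y : X), (y : G → A) = shift g x → (τ y : G → A) = shift g (τ x))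
    (hinj : Function.Injective τ) (x₀ : X) (hx₀ : x₀ ∉ Set.range τ) :
    ∃ (M N P : Finset G) (μ : (G → A) → A),
      (∀ (w : X) g (u : G → A), (∀ m ∈ M, u m = w.1 (g * m)) → μ u = (τ w).1 g) ∧
      (∀ w w' : X, (∀ n ∈ N, (τ w).1 n = (τ w').1 n) → w.1 1 = w'.1 1) ∧
      ∀ w : X, ¬∀ g ∈ P, (τ w).1 g = x₀.1 g := by
  classical
  have hXc : IsCompact X := hc.isCompact
  have : CompactSpace X := isCompact_iff_compactSpace.1 hXc
  have hev : ∀ g, Continuous fun w : X => (τ w).1 g := fun g =>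
    (continuous_apply g).comp (continuous_subtype_val.comp hτc)
  obtain ⟨M, hM⟩ := exists_memory hXc
    (f := fun x => if h : x ∈ X then (τ ⟨x, h⟩).1 1 else x 1) (by
      rw [continuousOn_iff_continuous_domRestrict]
      convert hev 1 using 1
      funext x
      exact dif_pos x.2)
  have hcl : IsClosed {q : X × X | q.1.1 1 ≠ q.2.1 1} :=
    (isClosed_discrete {a : A × A | a.1 ≠ a.2}).preimage
      (f := fun q : X × X => (q.1.1 1, q.2.1 1))
      (((continuous_apply 1).comp (continuous_subtype_val.comp continuous_fst)).prodMk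
        ((continuous_apply 1).comp (continuous_subtype_val.comp continuous_snd)))
  obtain ⟨N, hN⟩ := hcl.isCompact.elim_finite_subcover
    (fun n : G => {q : X × X | (τ q.1).1 n ≠ (τ q.2).1 n})
    (fun n => isOpen_ne_fun ((hev n).comp continuous_fst) ((hev n).comp continuous_snd))
    fun q hq => by
      by_contra h
      simp only [Set.mem_iUnion, not_exists, ne_eq, Set.mem_ofPred_eq, not_not] at h
      exact hq (by rw [hinj (Subtype.ext (funext h))])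
  have hcl' : IsClosed (Set.range fun w : X => (τ w).1) :=
    (isCompact_range (continuous_subtype_val.comp hτc)).isClosed
  obtain ⟨P, hP⟩ := not_forall.1 (mt (mem_of_forall_finset hcl' (x := x₀.1))
    fun ⟨w, hw⟩ => hx₀ ⟨w, Subtype.ext hw⟩)
  refine ⟨M, N, P, fun u => if h : ∃ w : X, ∀ m ∈ M, u m = w.1 m then (τ h.choose).1 1 else u 1,
    fun w g u hu => ?_, fun w w' h => ?_, fun w h => hP ⟨_, ⟨w, rfl⟩, h⟩⟩
  · have h : ∃ w : X, ∀ m ∈ M, u m = w.1 m := ⟨⟨_, hs g⁻¹ _ w.2⟩, fun m hm =>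
      (hu m hm).trans (shift_inv_apply _ _ _).symm⟩
    have := hM _ h.choose.2 _ (hs g⁻¹ _ w.2) fun m hm => by
      rw [← h.choose_spec m hm, hu m hm, shift_inv_apply]
    rw [dif_pos h.choose.2, dif_pos (hs g⁻¹ _ w.2), hτ g⁻¹ w ⟨_, hs g⁻¹ _ w.2⟩ rfl,
      shift_inv_apply, mul_one] at this
    exact (dif_pos h).trans this
  · by_contra hne
    obtain ⟨n, hn, h'⟩ := Set.mem_iUnion₂.1 (hN (show (w, w') ∈ _ from hne))
    exact h' (h n hn)

theorem surj_of_models [Finite A] [TopologicalSpace A] [DiscreteTopology A] {X : Set (G → A)}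
    (hc : IsClosed X) (hs : ∀ g, ∀ x ∈ X, shift g x ∈ X) (hSI : StronglyIrreducible X)
    (hT : TMP X) (hM : X.Nonempty → HasModels.{u, w} X) : Surjunctive X := by
  classical
  intro τ hτc hτ hinj x₀
  by_contra hx₀
  have := Fintype.ofFinite A
  have : Nonempty A := ⟨x₀.1 1⟩
  obtain ⟨M, N, P, μ, hμ, hN, hP⟩ := exists_local hc hs τ hτc hτ hinj x₀ hx₀
  obtain ⟨Δ, hΔ⟩ := hSI
  obtain ⟨R, hR1, hPR, hR⟩ : ∃ R : Finset G, 1 ∈ R ∧ P ⊆ R ∧ ∀ a ∈ P, ∀ d ∈ Δ, a * d ∈ R :=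
    ⟨insert 1 (P ∪ image₂ (· * ·) P Δ), by simp, fun a ha => by simp [ha], fun a ha d hd =>
      mem_insert_of_mem (mem_union_right _ (mem_image₂_of_mem ha hd))⟩
  obtain ⟨S, hRS, hT⟩ := hT R
  have hp : ∀ x ∈ X, ∃ z ∈ X, (∀ g ∈ P, z g = x₀.1 g) ∧ ∀ g ∈ S, g ∉ R → z g = x g :=
    fun x hx => by
      obtain ⟨z, hz, h1, h2⟩ := hΔ _ x₀.2 _ hx P (S \ R) fun a ha d hd h =>
        (mem_sdiff.1 h).2 (hR a ha d hd)
      exact ⟨z, hz, h1, fun g hg hr => h2 g (mem_sdiff.2 ⟨hg, hr⟩)⟩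
  set α : ℝ := (Fintype.card A : ℝ) with hα
  have hα1 : 1 ≤ α := by rw [hα]; exact_mod_cast Fintype.card_pos
  set δ : ℝ := 1 + (α ^ #R)⁻¹ with hδ
  have hδ1 : 1 < δ := lt_add_of_pos_right _ (by positivity)
  have iter : ∀ k : ℕ, ∃ K₂ : Finset G, ∀ K, K₂ ⊆ K → ∀ (V : Type w) [Fintype V] (c : Chart K V)
      (I : Finset V), c.Sep S I →
      #(c.mic X K₂) * (δ ^ #I) ^ k ≤ α ^ Fintype.card V * (α ^ #c.V₀ᶜ) ^ k := by
    intro k
    induction k with
    | zero =>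
      refine ⟨∅, fun K _ V _ c I _ => ?_⟩
      have := card_le_univ (c.mic X ∅)
      rw [Fintype.card_fun] at this
      simp only [pow_zero, mul_one, hα]
      exact_mod_cast this
    | succ k ih =>
      obtain ⟨K₀, h0⟩ := ih
      obtain ⟨K₁, k1, k2, k3, k4, k5⟩ : ∃ K₁ : Finset G, K₀ ⊆ K₁ ∧ S ⊆ K₁ ∧ N ⊆ K₁ ∧ P ⊆ K₁ ∧
          ∀ g ∈ K₀, ∀ r ∈ R, ∀ s ∈ S, g * r⁻¹ * s ∈ K₁ :=
        ⟨K₀ ∪ S ∪ N ∪ P ∪ image₂ (· * ·) (image₂ (fun g r => g * r⁻¹) K₀ R) S,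
          fun a ha => by simp [ha], fun a ha => by simp [ha], fun a ha => by simp [ha],
          fun a ha => by simp [ha], fun g hg r hr s hs =>
            mem_union_right _ (mem_image₂_of_mem (mem_image₂_of_mem hg hr) hs)⟩
      refine ⟨K₁ ∪ image₂ (· * ·) K₁ M, fun K hK V _ c I hI => ?_⟩
      have hK1 : K₁ ⊆ K := subset_union_left.trans hK
      have s1 := c.step1 hμ hN hP hK1 hK (mem_union_left _ (k2 (hRS hR1))) k3 k4
        fun g hg m hm => mem_union_right _ (mem_image₂_of_mem hg hm)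
      have s3 := c.step3 fun J hJ => c.step2 hs hT hRS hPR hp hK1 (hRS hR1) k2 k1 k5 hI hJ
      have s1' := (Nat.cast_le (α := ℝ)).2 s1
      push_cast at s1'
      have s4 := h0 K (k1.trans hK1) V c I hI
      rw [← hα] at s1' s3
      rw [← hδ] at s3
      have p1 : 0 ≤ δ ^ #I := by positivity
      have p2 : 0 ≤ (δ ^ #I) ^ k := by positivity
      have p3 : 0 ≤ α ^ #c.V₀ᶜ := by positivity
      calc _ ≤ _ := mul_le_mul_of_nonneg_right s1' (by positivity)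
        _ = (_ * δ ^ #I) * (δ ^ #I) ^ k * α ^ #c.V₀ᶜ := by ring
        _ ≤ #(c.mic X K₀) * (δ ^ #I) ^ k * α ^ #c.V₀ᶜ := by gcongr
        _ ≤ _ := by rw [pow_succ, ← mul_assoc]; gcongr
  obtain ⟨m, hm⟩ := pow_unbounded_of_one_lt (α ^ 2) hδ1
  let SS := image₂ (fun s s' => s * s'⁻¹) S S
  obtain ⟨K₂, h2⟩ := iter (2 * #SS * m)
  obtain ⟨V, _, _, c, h3, y, hy⟩ := hM ⟨_, x₀.2⟩ (K₂ ∪ S ∪ SS) (((2 * #SS * m + 2 : ℕ) : ℝ)⁻¹)
    (by positivity)
  obtain ⟨I, hI, h4⟩ := c.exists_sep S (hRS hR1) (fun a ha => by simp [ha]) subset_union_right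
  have h5 := h2 _ (fun a ha => by simp [ha]) V c I hI
  have h6 : (1 : ℝ) ≤ #(c.mic X K₂) := by
    have : y ∈ c.mic X K₂ := c.mem_mic.2 fun v hv => by
      obtain ⟨x, hx, h⟩ := hy v hv
      exact ⟨x, hx, fun g hg => h g (by simp [hg])⟩
    exact_mod_cast card_pos.2 ⟨y, this⟩
  have h7 : #c.V₀ᶜ + #c.V₀ = Fintype.card V := card_compl_add_card _
  have h8 : #c.V₀ᶜ * (2 * #SS * m + 2) ≤ Fintype.card V := by
    rw [inv_mul_eq_div, le_div_iff₀ (by positivity), ← h7] at h3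
    push_cast at h3
    rw [add_sub_cancel_right] at h3
    rw [← h7]
    exact_mod_cast h3
  have h9 : m * Fintype.card V ≤ #I * (2 * #SS * m) := by
    have : Fintype.card V ≤ 2 * (#I * #SS) := by
      change _ ≤ #I * #SS at h4
      nlinarith [Nat.zero_le (#c.V₀ᶜ * (#SS * m))]
    nlinarith [Nat.mul_le_mul_left m this]
  have h10 : Fintype.card V + #c.V₀ᶜ * (2 * #SS * m) ≤ 2 * Fintype.card V := by nlinarith
  refine absurd (pow_lt_pow_left₀ hm (by positivity) (Fintype.card_ne_zero (α := V))) (not_lt.2 ?_)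
  rw [← pow_mul, ← pow_mul, ← pow_add] at h5
  rw [← pow_mul, ← pow_mul]
  calc _ ≤ δ ^ (#I * (2 * #SS * m)) := pow_le_pow_right₀ hδ1.le h9
    _ ≤ _ := le_mul_of_one_le_left (by positivity) h6
    _ ≤ _ := h5
    _ ≤ _ := pow_le_pow_right₀ hα1 h10

end Pool.Agent.MP_3bdc7b_an.ca
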