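import Pool.Agent.MP_3bdc7b_an.ca.Ins
import Pool.Agent.MP_3bdc7b_an.ca.Slab
import Pool.Agent.MP_3bdc7b_an.ca.Sofic

/-!
A subshift with approximately continuous insertion and with labeled finite models is surjunctive.
-/

namespace Pool.Agent.MP_3bdc7b_an.ca

open Finset

universe u w

variable {G : Type u} [Group G] {A : Type*}

open Classical in
lemma Chart.step2' {K : Finset G} {V : Type w} (c : Chart K V) [Fintype V] [Fintype A]
    [Nonempty A] {R P : Finset G} {p : G → A} {s t : Finset (V → A)} {I J : Finset V}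
    (hPR : P ⊆ R) (hI : c.Sep R I) (hJ : J ⊆ I) (hs : ∀ y ∈ s, ∀ v ∈ I, ¬c.Occ P p y v)
    (H : ∀ y ∈ s, ∃ y' ∈ t, (∀ v ∈ J, c.Occ P p y' v) ∧ ∀ w ∉ image₂ c.a J R, y' w = y w) :
    #s ≤ #(t.filter fun y => I.filter (c.Occ P p y) = J) * Fintype.card A ^ #(image₂ c.a J R) := by
  choose! f h1 h2 h3 using H
  refine card_le_of_agree _ _ _ f (fun y hy => mem_filter.2 ⟨h1 y hy, ?_⟩)
    fun y hy y' hy' e v hv => by rw [← h3 y hy v hv, e, h3 y' hy' v hv]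
  ext v
  rw [mem_filter]
  refine ⟨fun ⟨k1, k2⟩ => ?_, fun hv => ⟨hJ hv, h2 y hy v hv⟩⟩
  by_contra hv
  refine hs y hy v k1 fun g hg => ?_
  rw [← k2 g hg, h3 y hy _ fun h => ?_]
  obtain ⟨v', hv', r, hr, e⟩ := mem_image₂.1 h
  exact hv (hI.2 _ (hJ hv') _ k1 _ hr _ (hPR hg) e ▸ hv')

theorem surj_of_insertion [Finite A] [TopologicalSpace A] [DiscreteTopology A] {X : Set (G → A)}
    (hc : IsClosed X) (hs : ∀ g, ∀ x ∈ X, shift g x ∈ X) (hT : ApproxInsertion X)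
    (hM : X.Nonempty → HasModels.{u, w} X) : Surjunctive X := by
  classical
  intro τ hτc hτ hinj x₀
  by_contra hx₀
  have := Fintype.ofFinite A
  have : Nonempty A := ⟨x₀.1 1⟩
  obtain ⟨M, N, P, μ, hμ, hN, hP⟩ := exists_local hc hs τ hτc hτ hinj x₀ hx₀
  obtain ⟨R, hR1, hPR, hR⟩ := ApproxInsertion.exists_ins.{u, w} hT x₀.2 P
  set α : ℝ := (Fintype.card A : ℝ) with hα
  have hα1 : 1 ≤ α := by rw [hα]; exact_mod_cast Fintype.card_pos
  set δ : ℝ := 1 + (α ^ #R)⁻¹ with hδ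
  have hδ1 : 1 < δ := lt_add_of_pos_right _ (by positivity)
  have iter : ∀ k : ℕ, ∃ K₂ : Finset G, ∀ K, K₂ ⊆ K → ∀ (V : Type w) [Fintype V] (c : Chart K V)
      (I : Finset V), c.Sep R I →
      #(c.mic X K₂) * (δ ^ #I) ^ k ≤ α ^ Fintype.card V * (α ^ #c.V₀ᶜ) ^ k := by
    intro k
    induction k with
    | zero =>
      refine ⟨∅, fun K _ V _ c I _ => ?_⟩
      have := card_le_univ (c.mic X ∅)
      rw [Fintype.card_fun] at this
      simp only [pow_zero, mul_one, hα]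
      exact_mod_cast this
    | succ k ih =>
      obtain ⟨K₀, h0⟩ := ih
      obtain ⟨K', k1, k2⟩ := hR K₀
      obtain ⟨K₁, k3, k4, k5, k6⟩ : ∃ K₁ : Finset G, K' ⊆ K₁ ∧ 1 ∈ K₁ ∧ N ⊆ K₁ ∧ P ⊆ K₁ :=
        ⟨insert 1 (K' ∪ N ∪ P), fun a ha => by simp [ha], by simp, fun a ha => by simp [ha],
          fun a ha => by simp [ha]⟩
      refine ⟨K₁ ∪ image₂ (· * ·) K₁ M, fun K hK V _ c I hI => ?_⟩
      have hK1 : K₁ ⊆ K := subset_union_left.trans hK
      have s1 := c.step1 hμ hN hP hK1 hK (mem_union_left _ k4) k5 k6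
        fun g hg m hm => mem_union_right _ (mem_image₂_of_mem hg hm)
      have s3 := c.step3 fun J hJ => c.step2' (s := (c.mic X K₁).filter fun y =>
        ∀ v ∈ c.V₀, ¬c.Occ P x₀ y v) hPR hI hJ (fun y hy v hv => (mem_filter.1 hy).2 v (hI.1 hv))
        fun y hy => k2 K (k3.trans hK1) V c J ⟨hJ.trans hI.1, fun v hv v' hv' =>
          hI.2 v (hJ hv) v' (hJ hv')⟩ y (c.mem_mic.2 fun v hv => by
            obtain ⟨x, hx, h⟩ := c.mem_mic.1 (mem_filter.1 hy).1 v hv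
            exact ⟨x, hx, fun g hg => h g (k3 hg)⟩)
      have s1' := (Nat.cast_le (α := ℝ)).2 s1
      push_cast at s1'
      have s4 := h0 K ((k1.trans k3).trans hK1) V c I hI
      rw [← hα] at s1' s3
      rw [← hδ] at s3
      have p1 : 0 ≤ δ ^ #I := by positivity
      have p2 : 0 ≤ (δ ^ #I) ^ k := by positivity
      have p3 : 0 ≤ α ^ #c.V₀ᶜ := by positivity
      calc _ ≤ _ := mul_le_mul_of_nonneg_right s1' (by positivity)
        _ = (_ * δ ^ #I) * (δ ^ #I) ^ k * α ^ #c.V₀ᶜ := by ring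
        _ ≤ #(c.mic X K₀) * (δ ^ #I) ^ k * α ^ #c.V₀ᶜ := by gcongr
        _ ≤ _ := by rw [pow_succ, ← mul_assoc]; gcongr
  obtain ⟨m, hm⟩ := pow_unbounded_of_one_lt (α ^ 2) hδ1
  let SS := image₂ (fun s s' => s * s'⁻¹) R R
  obtain ⟨K₂, h2⟩ := iter (2 * #SS * m)
  obtain ⟨V, _, _, c, h3, y, hy⟩ := hM ⟨_, x₀.2⟩ (K₂ ∪ R ∪ SS) (((2 * #SS * m + 2 : ℕ) : ℝ)⁻¹)
    (by positivity)
  obtain ⟨I, hI, h4⟩ := c.exists_sep R hR1 (fun a ha => by simp [ha]) subset_union_right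
  have h5 := h2 _ (fun a ha => by simp [ha]) V c I hI
  have h6 : (1 : ℝ) ≤ #(c.mic X K₂) := by
    have : y ∈ c.mic X K₂ := c.mem_mic.2 fun v hv => by
      obtain ⟨x, hx, h⟩ := hy v hv
      exact ⟨x, hx, fun g hg => h g (by simp [hg])⟩
    exact_mod_cast card_pos.2 ⟨y, this⟩
  have h7 : #c.V₀ᶜ + #c.V₀ = Fintype.card V := card_compl_add_card _
  have h8 : #c.V₀ᶜ * (2 * #SS * m + 2) ≤ Fintype.card V := by
    rw [inv_mul_eq_div, le_div_iff₀ (by positivity), ← h7] at h3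
    push_cast at h3
    rw [add_sub_cancel_right] at h3
    rw [← h7]
    exact_mod_cast h3
  have h9 : m * Fintype.card V ≤ #I * (2 * #SS * m) := by
    have : Fintype.card V ≤ 2 * (#I * #SS) := by
      change _ ≤ #I * #SS at h4
      nlinarith [Nat.zero_le (#c.V₀ᶜ * (#SS * m))]
    nlinarith [Nat.mul_le_mul_left m this]
  have h10 : Fintype.card V + #c.V₀ᶜ * (2 * #SS * m) ≤ 2 * Fintype.card V := by nlinarith
  refine absurd (pow_lt_pow_left₀ hm (by positivity) (Fintype.card_ne_zero (α := V))) (not_lt.2 ?_)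
  rw [← pow_mul, ← pow_mul, ← pow_add] at h5
  rw [← pow_mul, ← pow_mul]
  calc _ ≤ δ ^ (#I * (2 * #SS * m)) := pow_le_pow_right₀ hδ1.le h9
    _ ≤ _ := le_mul_of_one_le_left (by positivity) h6
    _ ≤ _ := h5
    _ ≤ _ := pow_le_pow_right₀ hα1 h10

end Pool.Agent.MP_3bdc7b_an.ca
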